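import Pool.Agent.Q18.LF.Stm
import Pool.Agent.Q18.K.Kr

/-!
# The local formula: assembly
-/

set_option autoImplicit false

open scoped Classical BigOperators

noncomputable section

set_option linter.unusedSectionVars false

namespace Pool.Agent.Q18.LF

open Pool.Agent.Y63.NV
open Pool.Agent.Y63.KR
open Pool.Agent.Y63.AWC (IsIrreducibleCharacter pSubgroupSetoid)
open Pool.Agent.Y286.NV (orbit_weights sup_conj)

/-- orbit counting for integer valued functions of `p`-subgroups -/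
theorem orbit_int {Γ : Type} [Group Γ] [Finite Γ] (p : ℕ) (f : Subgroup Γ → ℤ)
    (hf : ∀ (g : Γ) (Q : Subgroup Γ), f (conjSub g Q) = f Q) :
    (Nat.card Γ : ℤ) * ∑ᶠ c : Quotient (pSubgroupSetoid p Γ), f c.out.1 =
      ∑ᶠ Q : Subgroup Γ, if IsPGroup p Q then
        (Nat.card (Subgroup.normalizer (Q : Set Γ)) : ℤ) * f Q else 0 := by
  have : Fintype Γ := Fintype.ofFinite Γ
  have : Fintype (Subgroup Γ) := Fintype.ofFinite _
  have : Fintype {Q : Subgroup Γ // IsPGroup p Q} := Fintype.ofFinite _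
  let _ : MulAction Γ {Q : Subgroup Γ // IsPGroup p Q} :=
    { smul := fun g Q => ⟨conjSub g Q.1, Q.2.map _⟩
      one_smul := fun Q => Subtype.ext (conjSub_one _)
      mul_smul := fun g h Q => Subtype.ext (conjSub_mul g h _) }
  have hsm : ∀ (g : Γ) (Q : {Q : Subgroup Γ // IsPGroup p Q}),
      (g • Q).1 = conjSub g Q.1 := fun _ _ => rfl
  have h := Pool.Agent.Y63.KR.orbit_sum (G := Γ) (pSubgroupSetoid p Γ) (by
    intro Q R
    change (∃ g : Γ, R.1 = Q.1.map (MulAut.conj g).toMonoidHom) ↔ _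
    constructor
    · rintro ⟨g, hg⟩
      exact ⟨g, Subtype.ext (by rw [hsm, hg]; rfl)⟩
    · rintro ⟨g, hg⟩
      exact ⟨g, by rw [← hg, hsm]; rfl⟩) (fun Q => f Q.1) (by
      rintro Q R ⟨g, hg⟩
      change f Q.1 = f R.1
      rw [hg]
      exact (hf g Q.1).symm)
  rw [h, finsum_eq_sum_of_fintype, ← Finset.sum_filter]
  have h2 : ∑ Q : {Q : Subgroup Γ // IsPGroup p Q},
      (Nat.card (Subgroup.normalizer (Q.1 : Set Γ)) : ℤ) * f Q.1 =
      ∑ Q ∈ Finset.univ.filter (fun Q : Subgroup Γ => IsPGroup p Q),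
        (Nat.card (Subgroup.normalizer (Q : Set Γ)) : ℤ) * f Q :=
    (Finset.sum_subtype (p := fun Q : Subgroup Γ => IsPGroup p Q)
      (Finset.univ.filter fun Q : Subgroup Γ => IsPGroup p Q) (by simp)
      (fun Q => (Nat.card (Subgroup.normalizer (Q : Set Γ)) : ℤ) * f Q)).symm
  rw [← h2]
  refine Finset.sum_congr rfl fun Q _ => ?_
  congr 2
  refine Nat.card_congr (Equiv.subtypeEquivRight fun g => ?_)
  rw [MulAction.mem_stabilizer_iff, Subtype.ext_iff, hsm]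
  exact conjSub_eq_iff

section

variable {p : ℕ} [Fact p.Prime] {F : Type} [Field F] [IsAlgClosed F] [CharP F p]
  {Γ : Type} [Group Γ] [Finite Γ] {G : Subgroup Γ}

/-- the local terms and ordinary characters -/
theorem ll_ka (hcor : S_COR) (hquo : S_QUO) (hcls : S_CLS) (red : integralClosure ℤ ℂ →+* F)
    [hG : G.Normal] {z : Γ → F} (hz : InZ G z) (c : F) {Q : Subgroup Γ} (hQ : IsPGroup p Q)
    (hGQ : G ⊔ Q = ⊤) :
    LL p (fun H => Lsum G H z c) Q (Subgroup.normalizer (Q : Set Γ)) =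
      (Nat.card Q : ℤ) * KA p red (pz Q z) c := by
  have : Fintype {σ : Set (Subgroup (NQ Q)) // IsPChain p σ} := Fintype.ofFinite _
  rw [hcor p Γ _ Q hQ]
  unfold KA
  rw [finsum_eq_sum_of_fintype, finsum_eq_sum_of_fintype,
    kl_alt Pool.Agent.Q18.K.s_kdimh Pool.Agent.Q18.K.s_kfilt red
      (hcls F Γ z Q (fun g x => hz.conj g x)) c, Finset.mul_sum]
  refine Finset.sum_congr rfl fun σ _ => ?_
  rw [hquo p F Γ G z hz c Q hQ hGQ]
  ring

/-- **the local formula**, for single central elements -/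
theorem z_formula (halt : S_ALT) (hnrm : S_NRM) (hcor : S_COR) (hquo : S_QUO) (hcls : S_CLS)
    (red : integralClosure ℤ ℂ →+* F) [hG : G.Normal] (hG1 : G ≠ ⊤) (hp : IsPGroup p (Γ ⧸ G))
    {z : Γ → F} (hz : InZ G z) (c : F) :
    Lsum G ⊤ z c = ∑ᶠ Q : Subgroup Γ,
      if IsPGroup p Q ∧ G ⊔ Q = ⊤ then (Nat.card Q : ℤ) * KA p red (pz Q z) c else 0 := by
  rw [halt p Γ G (wN p G z c) (fun H => Lsum G H z c) hG1 (fun H => lsum_eqH hp hz c H) ⊤]
  refine finsum_congr fun Q => ?_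
  by_cases h : IsPGroup p Q ∧ G ⊔ Q = ⊤
  · rw [if_pos ⟨h.1, le_top, h.2⟩, if_pos h, hnrm p Γ _ Q ⊤ h.1 le_top, top_inf_eq,
      ll_ka hcor hquo hcls red hz c h.1 h.2]
  · rw [if_neg (fun h' => h ⟨h'.1, h'.2.2⟩), if_neg h]

/-- the weights, for single central elements -/
theorem z_weights (hnwq : S_NWQ) (red : integralClosure ℤ ℂ →+* F)
    {z : Γ → F} (hz : InZ G z) (c : F) :
    Wsum p red G ⊤ z c = ∑ᶠ Q : Subgroup Γ, if IsPGroup p Q ∧ G ⊔ Q = ⊤ then
      (Nat.card Q : ℤ) * ((Nat.card (NQ Q) : ℤ) * Nw p red (⊥ : Subgroup (NQ Q)) (pz Q z) c)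
      else 0 := by
  unfold Wsum
  refine finsum_congr fun Q => ?_
  by_cases h : IsPGroup p Q ∧ G ⊔ Q = ⊤
  · have h5 : ∀ J : Subgroup Γ, J = Subgroup.normalizer (Q : Set Γ) →
        (Nat.card J : ℤ) * Nw p red (Q.subgroupOf J) (fun x => z x) c =
        (Nat.card (Subgroup.normalizer (Q : Set Γ)) : ℤ) *
          Nw p red (Q.subgroupOf (Subgroup.normalizer (Q : Set Γ))) (fun x => z x) c := by
      rintro J rfl
      rfl
    rw [if_pos ⟨h.1, le_top, h.2⟩, if_pos h, h5 _ (top_inf_eq _),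
      hnwq p F red Γ z c Q h.1 (fun g x => hz.conj g x), ← mul_assoc]
    congr 1
    have h6 : Nat.card (Subgroup.normalizer (Q : Set Γ)) =
        Nat.card (NQ Q) * Nat.card (Q.subgroupOf (Subgroup.normalizer (Q : Set Γ))) :=
      Subgroup.card_eq_card_quotient_mul_card_subgroup _
    have h7 : Nat.card (Q.subgroupOf (Subgroup.normalizer (Q : Set Γ))) = Nat.card Q :=
      Nat.card_congr (Subgroup.subgroupOfEquivOfLe Subgroup.le_normalizer).toEquiv
    rw [h6, h7]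
    push_cast
    ring
  · rw [if_neg (fun h' => h ⟨h'.1, h'.2.2⟩), if_neg h]

theorem card_nq (Q : Subgroup Γ) : (Nat.card (Subgroup.normalizer (Q : Set Γ)) : ℤ) =
    (Nat.card Q : ℤ) * Nat.card (NQ Q) := by
  have h6 : Nat.card (Subgroup.normalizer (Q : Set Γ)) =
      Nat.card (NQ Q) * Nat.card (Q.subgroupOf (Subgroup.normalizer (Q : Set Γ))) :=
    Subgroup.card_eq_card_quotient_mul_card_subgroup _
  have h7 : Nat.card (Q.subgroupOf (Subgroup.normalizer (Q : Set Γ))) = Nat.card Q :=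
    Nat.card_congr (Subgroup.subgroupOfEquivOfLe Subgroup.le_normalizer).toEquiv
  rw [h6, h7]
  push_cast
  ring

/-- **the local formula for blocks** -/
theorem block_formula (halt : S_ALT) (hnrm : S_NRM) (hcor : S_COR) (hquo : S_QUO)
    (hcls : S_CLS) (hcnv : S_CNV) (hcma : S_CMA) (hsep : S_SEPK)
    (red : integralClosure ℤ ℂ →+* F) [hG : G.Normal] (hG1 : G ≠ ⊤) (hp : IsPGroup p (Γ ⧸ G))
    {B : (G → F) → F} (hB : IsBlock B) (hBi : IsInvBlock G B) :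
    (numIBr G B : ℤ) = ∑ᶠ c : Quotient (pSubgroupSetoid p Γ), if G ⊔ c.out.1 = ⊤ then
      alternatingSum p (NQ c.out.1) (fun H => (numIrrCov red G c.out.1 B H : ℤ)) else 0 := by
  have h1 := hsep p F red Γ G hp
    (fun z hz c => z_formula halt hnrm hcor hquo hcls red hG1 hp hz c) B hB hBi
  have h2 := orbit_int (Γ := Γ) p (fun Q => if G ⊔ Q = ⊤ then
    alternatingSum p (NQ Q) (fun H => (numIrrCov red G Q B H : ℤ)) else 0) (by
      intro g Q
      have h3 : G ⊔ conjSub g Q = ⊤ ↔ G ⊔ Q = ⊤ := sup_conj G g Q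
      by_cases h4 : G ⊔ Q = ⊤
      · rw [if_pos h4, if_pos (h3.2 h4), hcnv]
      · rw [if_neg h4, if_neg (fun h => h4 (h3.1 h))])
  have hpos : (Nat.card Γ : ℤ) ≠ 0 := by exact_mod_cast Nat.card_pos.ne'
  refine mul_left_cancel₀ hpos ?_
  rw [h1, h2]
  refine finsum_congr fun Q => ?_
  by_cases h5 : IsPGroup p Q
  · by_cases h6 : G ⊔ Q = ⊤
    · rw [if_pos ⟨h5, h6⟩, if_pos h5, if_pos h6, ← hcma p F red Γ G B Q, card_nq, mul_assoc]
    · rw [if_neg (fun h => h6 h.2), if_pos h5, if_neg h6, mul_zero]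
  · rw [if_neg (fun h => h5 h.1), if_neg h5]

/-- **the criterion** -/
theorem criterion (halt : S_ALT) (hnrm : S_NRM) (hcor : S_COR) (hquo : S_QUO) (hcls : S_CLS)
    (hnwq : S_NWQ) (red : integralClosure ℤ ℂ →+* F) [hG : G.Normal] (hG1 : G ≠ ⊤)
    (hp : IsPGroup p (Γ ⧸ G))
    (h : ∀ Q : Subgroup Γ, IsPGroup p Q → G ⊔ Q = ⊤ → KRB p red (NQ Q)) :
    Navarro p red G := by
  refine fin' p F red Γ G hp fun z hz c => ?_
  rw [z_formula halt hnrm hcor hquo hcls red hG1 hp hz c, z_weights hnwq red hz c]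
  refine finsum_congr fun Q => ?_
  by_cases h1 : IsPGroup p Q ∧ G ⊔ Q = ⊤
  · rw [if_pos h1, if_pos h1]
    congr 1
    exact (Pool.Agent.Q18.K.s_kfin p F red (NQ Q)).1 (h Q h1.1 h1.2) (pz Q z) c
      (hcls F Γ z Q fun g x => hz.conj g x)
  · rw [if_neg h1, if_neg h1]

/-- **different Sylow subgroups with small intersection** -/
theorem ti_case (halt : S_ALT) (hnrm : S_NRM) (hcor : S_COR) (hquo : S_QUO) (hcls : S_CLS)
    (hnwq : S_NWQ) (hkrn : S_KRN) (hkrp : S_KRP) (hti : S_TI)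
    (red : integralClosure ℤ ℂ →+* F) [hG : G.Normal] (hG1 : G ≠ ⊤)
    (hp : IsPGroup p (Γ ⧸ G))
    (h : ∀ P₁ P₂ : Sylow p Γ, P₁ ≠ P₂ → G ⊔ ((P₁ : Subgroup Γ) ⊓ (P₂ : Subgroup Γ)) ≠ ⊤) :
    Navarro p red G := by
  refine criterion halt hnrm hcor hquo hcls hnwq red hG1 hp fun Q hQ hGQ => ?_
  rcases hti p Γ G h Q hQ hGQ with h1 | ⟨Z, hZ, hZp, hZ1⟩
  · exact hkrp p F red (NQ Q) h1
  · exact hkrn p F red (NQ Q) Z hZp hZ1

/-- transfer for single central elements -/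
theorem z_transfer (halt : S_ALT) (hnrm : S_NRM) (hcnt : S_CNT) (hlcj : S_LCJ)
    [hG : G.Normal] (hG1 : G ≠ ⊤) (hp : IsPGroup p (Γ ⧸ G)) {H : Subgroup Γ} (hSE : SE p G H)
    {z : Γ → F} (hz : InZ G z) (c : F) :
    (Nat.card H : ℤ) * Lsum G ⊤ z c = (Nat.card Γ : ℤ) * Lsum G H z c := by
  have key : ∀ K : Subgroup Γ, (∀ Q : Subgroup Γ, IsPGroup p Q → Q ≤ K → G ⊔ Q = ⊤ →
      Subgroup.normalizer (Q : Set Γ) ≤ K) → Lsum G K z c = ∑ᶠ Q : Subgroup Γ,
      if IsPGroup p Q ∧ Q ≤ K ∧ G ⊔ Q = ⊤ then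
        LL p (fun H => Lsum G H z c) Q (Subgroup.normalizer (Q : Set Γ)) else 0 := by
    intro K hK
    rw [halt p Γ G (wN p G z c) (fun H => Lsum G H z c) hG1 (fun H => lsum_eqH hp hz c H) K]
    refine finsum_congr fun Q => ?_
    by_cases h : IsPGroup p Q ∧ Q ≤ K ∧ G ⊔ Q = ⊤
    · rw [if_pos h, if_pos h, hnrm p Γ _ Q K h.1 h.2.1, inf_eq_right.2 (hK Q h.1 h.2.1 h.2.2)]
    · rw [if_neg h, if_neg h]
  have h1 := hcnt p Γ G H (fun Q => LL p (fun H => Lsum G H z c) Q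
    (Subgroup.normalizer (Q : Set Γ))) hSE (fun g Q => hlcj p F Γ G z hz c g Q)
  rw [key H hSE.nrm, ← h1, key ⊤ (fun _ _ _ _ => le_top)]
  congr 1
  refine finsum_congr fun Q => ?_
  by_cases h : IsPGroup p Q ∧ G ⊔ Q = ⊤
  · rw [if_pos ⟨h.1, le_top, h.2⟩, if_pos h]
  · rw [if_neg (fun h' => h ⟨h'.1, h'.2.2⟩), if_neg h]

theorem sup_top_of_se [hG : G.Normal] (hp : IsPGroup p (Γ ⧸ G)) {H : Subgroup Γ}
    (hSE : SE p G H) : G ⊔ H = ⊤ := by
  obtain ⟨P, hP⟩ := hSE.syl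
  have h1 : G ⊔ (P : Subgroup Γ) = ⊤ := by
    have h2 : ¬ p ∣ (G ⊔ (P : Subgroup Γ)).index := by
      intro h
      exact P.not_dvd_index (h.trans (Subgroup.index_dvd_of_le le_sup_right))
    have h3 : (G ⊔ (P : Subgroup Γ)).index ∣ G.index := Subgroup.index_dvd_of_le le_sup_left
    obtain ⟨n, hn⟩ := IsPGroup.iff_card.1 hp
    have h4 : G.index = p ^ n := hn
    rw [h4, Nat.dvd_prime_pow Fact.out] at h3
    obtain ⟨k, _, hk⟩ := h3
    rcases Nat.eq_zero_or_pos k with rfl | hk0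
    · rw [pow_zero] at hk
      exact Subgroup.index_eq_one.1 hk
    · exact absurd (hk ▸ dvd_pow_self p hk0.ne') h2
  rw [eq_top_iff, ← h1]
  exact sup_le_sup_left hP G

end

end Pool.Agent.Q18.LF
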