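import Pool.Agent.Q18.LF.Asm

/-!
# Index `p`: assembly
-/

set_option autoImplicit false

open scoped Classical BigOperators

noncomputable section

set_option linter.unusedSectionVars false

namespace Pool.Agent.Q18.LF

open Pool.Agent.Y63.NV
open Pool.Agent.Y63.KR
open Pool.Agent.Y63.AWC (IsIrreducibleCharacter pSubgroupSetoid)

section

variable {p : ℕ} [Fact p.Prime] {F : Type} [Field F] [IsAlgClosed F] [CharP F p]
  {Γ : Type} [Group Γ] [Finite Γ] {G : Subgroup Γ}

theorem pgroup_of_card [hG : G.Normal] (hc : Nat.card (Γ ⧸ G) = p) : IsPGroup p (Γ ⧸ G) :=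
  IsPGroup.of_card (n := 1) (by rw [hc, pow_one])

theorem ne_top_of_card (hc : Nat.card (Γ ⧸ G) = p) : G ≠ ⊤ := by
  rintro rfl
  have h1 : (⊤ : Subgroup Γ).index = p := hc
  rw [Subgroup.index_top] at h1
  exact (Fact.out : p.Prime).one_lt.ne h1

theorem sup_or_le [hG : G.Normal] (hc : Nat.card (Γ ⧸ G) = p) (H : Subgroup Γ) :
    G ⊔ H = ⊤ ∨ H ≤ G := by
  have h1 : (G ⊔ H).index ∣ p := by
    have h2 : G.index = p := hc
    rw [← h2]
    exact Subgroup.index_dvd_of_le le_sup_left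
  rcases (Nat.dvd_prime (Fact.out : p.Prime)).1 h1 with h | h
  · exact Or.inl (Subgroup.index_eq_one.1 h)
  · right
    have h3 : G = G ⊔ H := by
      have h4 : G.relIndex (G ⊔ H) * (G ⊔ H).index = G.index :=
        Subgroup.relIndex_mul_index le_sup_left
      have h2 : G.index = p := hc
      rw [h, h2] at h4
      have h5 : G.relIndex (G ⊔ H) = 1 := by
        have := (Fact.out : p.Prime).pos
        exact Nat.eq_of_mul_eq_mul_right this (by rw [h4, one_mul])
      exact le_antisymm le_sup_left (Subgroup.relIndex_eq_one.1 h5)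
    rw [h3]
    exact le_sup_right

theorem card_compl [hG : G.Normal] (hc : Nat.card (Γ ⧸ G) = p) {U : Subgroup Γ}
    (h1 : G ⊔ U = ⊤) (h2 : G ⊓ U = ⊥) : Nat.card U = p := by
  have h3 : (G.subgroupOf U).index = p := by
    have h4 : G.relIndex (G ⊔ U) = p := by
      rw [h1, Subgroup.relIndex_top_right]
      exact hc
    have h5 : G.relIndex U = G.relIndex (G ⊔ U) := (Subgroup.relIndex_sup_left U G).symm
    rw [← h4, ← h5]
    rfl
  have h6 : G.subgroupOf U = ⊥ := by
    rw [Subgroup.subgroupOf_eq_bot]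
    exact disjoint_iff.2 h2
  rw [h6, Subgroup.index_bot] at h3
  exact h3

/-- **index `p`**, for single central elements -/
theorem ka_index (hidx : S_IDX) (hspl : S_SPL) (hres : S_RES) (hpx : S_PX) (hnrm : S_NRM)
    (hcor : S_COR) (hquo : S_QUO) (hcls : S_CLS) (red : integralClosure ℤ ℂ →+* F)
    [hG : G.Normal] (hc : Nat.card (Γ ⧸ G) = p) {z : Γ → F} (hz : InZ G z) (c : F) :
    KA p red z c = KA p red (fun x : G => z x) c - ∑ᶠ U : Subgroup Γ,
      if IsPGroup p U ∧ G ⊔ U = ⊤ ∧ G ⊓ U = ⊥ then KA p red (pz U z) c else 0 := by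
  have : Fintype {σ : Set (Subgroup Γ) // IsPChain p σ} := Fintype.ofFinite _
  have hp0 : (p : ℤ) ≠ 0 := by exact_mod_cast (Fact.out : p.Prime).ne_zero
  have hp := pgroup_of_card hc
  have hG1 := ne_top_of_card hc
  set f : Subgroup Γ → ℤ := fun H => Lsum ⊤ (G ⊓ H) (cut z (G ⊓ H)) c with hf
  have e1 : KA p red z c = ∑ᶠ σ : {σ : Set (Subgroup Γ) // IsPChain p σ},
      (-1) ^ σ.1.ncard * f (chainStabilizer σ.1) := by
    unfold KA
    rw [finsum_eq_sum_of_fintype, finsum_eq_sum_of_fintype,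
      kl_alt Pool.Agent.Q18.K.s_kdimh Pool.Agent.Q18.K.s_kfilt red (fun g x => hz.conj g x) c]
    refine mul_left_cancel₀ hp0 ?_
    have e2 := lsum_alt hp hG1 hz c
    rw [Finset.mul_sum, Finset.mul_sum]
    have e3 : ∀ σ : {σ : Set (Subgroup Γ) // IsPChain p σ},
        (p : ℤ) * ((-1) ^ σ.1.ncard *
          Lsum ⊤ (chainStabilizer σ.1) (cut z (chainStabilizer σ.1)) c) =
        p * ((-1) ^ σ.1.ncard * f (chainStabilizer σ.1)) +
          (p - 1) * ((-1) ^ σ.1.ncard * Lsum G (chainStabilizer σ.1) z c) := by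
      intro σ
      have h := hpx p F Γ G z c (chainStabilizer σ.1) hc hz
      calc (p : ℤ) * ((-1) ^ σ.1.ncard *
            Lsum ⊤ (chainStabilizer σ.1) (cut z (chainStabilizer σ.1)) c) =
          (-1) ^ σ.1.ncard *
            (p * Lsum ⊤ (chainStabilizer σ.1) (cut z (chainStabilizer σ.1)) c) := by ring
        _ = _ := by rw [h]; ring
    rw [Finset.sum_congr rfl fun σ _ => e3 σ, Finset.sum_add_distrib, ← Finset.mul_sum,
      ← Finset.mul_sum, e2, mul_zero, add_zero, Finset.mul_sum]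
  rw [e1, hidx p Γ G f, hres p F red Γ G z c hz]
  congr 1
  refine finsum_congr fun U => ?_
  by_cases h : IsPGroup p U ∧ G ⊔ U = ⊤ ∧ G ⊓ U = ⊥
  · have hU : U ≠ ⊥ := by
      rintro rfl
      exact hG1 (by simpa using h.2.1)
    rw [if_pos ⟨h.1, hU, h.2.2⟩, if_pos h, hnrm p Γ f U ⊤ h.1 le_top, top_inf_eq]
    refine mul_left_cancel₀ hp0 ?_
    have e4 := ll_ka (p := p) hcor hquo hcls red hz c h.1 h.2.1
    rw [card_compl hc h.2.1 h.2.2] at e4
    rw [← e4]
    unfold LL
    have hfin : Finite (CQ p U (Subgroup.normalizer (U : Set Γ))) := by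
      unfold CQ
      infer_instance
    have : Fintype (CQ p U (Subgroup.normalizer (U : Set Γ))) := Fintype.ofFinite _
    rw [finsum_eq_sum_of_fintype, finsum_eq_sum_of_fintype, Finset.mul_sum]
    refine Finset.sum_congr rfl fun τ _ => ?_
    have e5 : U ≤ Subgroup.normalizer (U : Set Γ) ⊓ Subgroup.normalizer (U : Set Γ) ⊓
        chainStabilizer τ.1 := by
      refine le_inf (le_inf Subgroup.le_normalizer Subgroup.le_normalizer) fun x hx => ?_
      rw [mem_chainStabilizer]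
      intro P hP
      rw [conjSub_eq_iff]
      exact Subgroup.le_normalizer ((τ.2.2 P hP).1.le hx)
    have e6 := hspl p F Γ G z c U _ hc h.2.1 h.2.2 e5 (inf_le_left.trans inf_le_left)
    calc (p : ℤ) * ((-1) ^ τ.1.ncard * f (Subgroup.normalizer (U : Set Γ) ⊓
          Subgroup.normalizer (U : Set Γ) ⊓ chainStabilizer τ.1)) =
        (-1) ^ τ.1.ncard * (p * Lsum ⊤ (G ⊓ (Subgroup.normalizer (U : Set Γ) ⊓
          Subgroup.normalizer (U : Set Γ) ⊓ chainStabilizer τ.1)) (cut z (G ⊓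
          (Subgroup.normalizer (U : Set Γ) ⊓ Subgroup.normalizer (U : Set Γ) ⊓
          chainStabilizer τ.1))) c) := by rw [hf]; ring
      _ = _ := by rw [← e6]
  · rw [if_neg h, if_neg]
    rintro ⟨h1, h2, h3⟩
    apply h
    refine ⟨h1, ?_, h3⟩
    rcases sup_or_le hc U with h4 | h4
    · exact h4
    · exact absurd (by rw [← h3]; exact (inf_eq_right.2 h4).symm) h2

/-- **index `p`**, the errors, for single central elements -/
theorem err_index (hidx : S_IDX) (hspl : S_SPL) (hres : S_RES) (hpx : S_PX) (hnrm : S_NRM)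
    (hcor : S_COR) (hquo : S_QUO) (hcls : S_CLS) (hdzx : S_DZX)
    (red : integralClosure ℤ ℂ →+* F)
    [hG : G.Normal] (hc : Nat.card (Γ ⧸ G) = p) {z : Γ → F} (hz : InZ G z) (c : F) :
    KA p red z c - (Nat.card Γ : ℤ) * Nw p red (⊥ : Subgroup Γ) z c =
      (KA p red (fun x : G => z x) c -
        (Nat.card G : ℤ) * Nw p red (⊥ : Subgroup G) (fun x => z x) c) -
      ∑ᶠ U : Subgroup Γ, if IsPGroup p U ∧ G ⊔ U = ⊤ ∧ G ⊓ U = ⊥ then
        (KA p red (pz U z) c -
          (Nat.card (NQ U) : ℤ) * Nw p red (⊥ : Subgroup (NQ U)) (pz U z) c) else 0 := by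
  have : Fintype (Subgroup Γ) := Fintype.ofFinite _
  rw [ka_index hidx hspl hres hpx hnrm hcor hquo hcls red hc hz c,
    hdzx p F red Γ G z c hc hz]
  have e : (∑ᶠ U : Subgroup Γ, if IsPGroup p U ∧ G ⊔ U = ⊤ ∧ G ⊓ U = ⊥ then
        (KA p red (pz U z) c -
          (Nat.card (NQ U) : ℤ) * Nw p red (⊥ : Subgroup (NQ U)) (pz U z) c) else 0) =
      (∑ᶠ U : Subgroup Γ, if IsPGroup p U ∧ G ⊔ U = ⊤ ∧ G ⊓ U = ⊥ then
        KA p red (pz U z) c else 0) -
      ∑ᶠ U : Subgroup Γ, if IsPGroup p U ∧ G ⊔ U = ⊤ ∧ G ⊓ U = ⊥ then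
        (Nat.card (NQ U) : ℤ) * Nw p red (⊥ : Subgroup (NQ U)) (pz U z) c else 0 := by
    rw [finsum_eq_sum_of_fintype, finsum_eq_sum_of_fintype, finsum_eq_sum_of_fintype,
      ← Finset.sum_sub_distrib]
    refine Finset.sum_congr rfl fun U _ => ?_
    split_ifs
    · rfl
    · rw [sub_zero]
  rw [e]
  ring

end

end Pool.Agent.Q18.LF
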