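import Pool.Agent.Q18.LF.Stm

/-!
# Bijections up to free orbits: statements
-/

set_option autoImplicit false

open scoped Classical

noncomputable section

namespace Pool.Agent.Q18.LF

open Pool.Agent.Y63.NV
open Pool.Agent.Y63.KR (IsPChain chainStabilizer alternatingSum conjSub)
open Pool.Agent.Y63.AWC (IsIrreducibleCharacter pSubgroupSetoid)

/-- NFR: two finite sets with the same numbers of fixed points for all subgroups `H` which are not
contained in the normal subgroup `N`: the points whose stabilisers are not contained in `N`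
correspond to each other -/
def S_NFR : Prop := ∀ (P : Type) [Group P] [Finite P] (N : Subgroup P) [N.Normal]
  (A B C : Type) [Finite A] [Finite B] [MulAction P A] [MulAction P B] [MulAction P C]
  (f : A → C) (g : B → C),
  (∀ (x : P) (a : A), f (x • a) = x • f a) → (∀ (x : P) (b : B), g (x • b) = x • g b) →
  (∀ (H : Subgroup P), ¬ H ≤ N → ∀ c : C, Nat.card {a : A // f a = c ∧ ∀ h ∈ H, h • a = a} =
    Nat.card {b : B // g b = c ∧ ∀ h ∈ H, h • b = b}) →
  ∃ e : {a : A // ∃ x : P, x ∉ N ∧ x • a = a} ≃ {b : B // ∃ x : P, x ∉ N ∧ x • b = b},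
    (∀ (x : P) (a a' : {a : A // ∃ x : P, x ∉ N ∧ x • a = a}), a'.1 = x • a.1 →
      (e a').1 = x • (e a).1) ∧ ∀ a, g (e a).1 = f a.1

/-- CNG: the numbers of points of a given colour are congruent modulo the index of `N` in the
stabiliser of the colour -/
def S_CNG : Prop := ∀ (P : Type) [Group P] [Finite P] (N : Subgroup P) [N.Normal]
  (A B C : Type) [Finite A] [Finite B] [MulAction P A] [MulAction P B] [MulAction P C]
  (f : A → C) (g : B → C),
  (∀ (x : P) (a : A), f (x • a) = x • f a) → (∀ (x : P) (b : B), g (x • b) = x • g b) →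
  (∀ x ∈ N, ∀ a : A, x • a = a) → (∀ x ∈ N, ∀ b : B, x • b = b) →
  (∃ e : {a : A // ∃ x : P, x ∉ N ∧ x • a = a} ≃ {b : B // ∃ x : P, x ∉ N ∧ x • b = b},
    ∀ a, g (e a).1 = f a.1) →
  ∀ c : C, (Nat.card {a : A // f a = c} : ℤ) ≡ Nat.card {b : B // g b = c}
    [ZMOD N.relIndex (MulAction.stabilizer P c)]

/-- PBL: index `p`, invariant blocks -/
def S_PBL : Prop := ∀ (p : ℕ) [Fact p.Prime] (F : Type) [Field F] [IsAlgClosed F] [CharP F p]
  (red : integralClosure ℤ ℂ →+* F) (Γ : Type) [Group Γ] [Finite Γ] (G : Subgroup Γ) [G.Normal],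
  Nat.card (Γ ⧸ G) = p → Navarro p red G →
  ∀ (b : (G → F) → F) (B : (Γ → F) → F), IsBlock b → IsInvBlock G b → IsBlock B →
    (∀ z : Γ → F, InZ G z → B z = b (fun x : G => z x)) →
    (numIrrBlock b : ℤ) - (∑ᶠ c : Quotient (pSubgroupSetoid p G), numWtBlock p red c.out.1 b : ℕ) =
      p * ((numIrrBlock B : ℤ) -
        (∑ᶠ c : Quotient (pSubgroupSetoid p Γ), numWtBlock p red c.out.1 B : ℕ))

/-- PBI: index `p`, the blockwise weight conjecture for `G` and for `Γ` -/
def S_PBI : Prop := ∀ (p : ℕ) [Fact p.Prime] (F : Type) [Field F] [IsAlgClosed F] [CharP F p]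
  (red : integralClosure ℤ ℂ →+* F) (Γ : Type) [Group Γ] [Finite Γ] (G : Subgroup Γ) [G.Normal],
  Nat.card (Γ ⧸ G) = p → Navarro p red G → (BAWC p red Γ ↔ BAWC p red G)

/-- TIL: different Sylow `p`-subgroups meet in `G`; the groups between `G` and `Γ` -/
def S_TIL : Prop := ∀ (p : ℕ) [Fact p.Prime] (Γ : Type) [Group Γ] [Finite Γ] (G : Subgroup Γ)
  [G.Normal], (∀ P₁ P₂ : Sylow p Γ, P₁ ≠ P₂ → (P₁ : Subgroup Γ) ⊓ (P₂ : Subgroup Γ) ≤ G) →
  ∀ L : Subgroup Γ, G < L → ∀ P₁ P₂ : Sylow p L, P₁ ≠ P₂ →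
    G.subgroupOf L ⊔ ((P₁ : Subgroup L) ⊓ (P₂ : Subgroup L)) ≠ ⊤

end Pool.Agent.Q18.LF
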