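import Pool.Agent.Q18.LF.Asm
import Pool.Agent.Q18.LF.Stm2
import Pool.Agent.Q18.EQ.Mn

/-!
# Bijections up to free orbits: assembly
-/

set_option autoImplicit false

open scoped Classical BigOperators

noncomputable section

set_option linter.unusedSectionVars false

namespace Pool.Agent.Q18.LF

open Pool.Agent.Y63.NV
open Pool.Agent.Y63.KR
open Pool.Agent.Q18.EQ
open Pool.Agent.Y63.AWC (IsIrreducibleCharacter pSubgroupSetoid)

section

variable {p : ℕ} {F : Type} [Field F] {Γ : Type} [Group Γ] [Finite Γ]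

/-- the irreducible characters of `G` over `F` whose stabiliser in `Γ` is larger than `G` -/
def IBs (F : Type) [Field F] (G : Subgroup Γ) [G.Normal] : Type :=
  {φ : IB F G // ∃ γ : Γ, γ ∉ G ∧ MulAut.conjNormal (H := G) γ • φ = φ}

/-- the `G`-classes of weights of `G` whose stabiliser in `Γ` is larger than `G` -/
def WCs (p : ℕ) (G : Subgroup Γ) [G.Normal] : Type :=
  {κ : WC p G // ∃ γ : Γ, γ ∉ G ∧ MulAut.conjNormal (H := G) γ • κ = κ}

/-- There is a bijection between these two sets which commutes with `Γ` and preserves the blocks;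
and for every colour (block) the numbers of all irreducible characters and of all classes of weights
are congruent modulo the index of `G` in the stabiliser of the block. -/
def Stable (p : ℕ) {F : Type} [Field F] [IsAlgClosed F] (red : integralClosure ℤ ℂ →+* F)
    (G : Subgroup Γ) [G.Normal] : Prop :=
  (∃ e : IBs F G ≃ WCs p G, (∀ (γ : Γ) (φ φ' : IBs F G),
      φ'.1 = MulAut.conjNormal (H := G) γ • φ.1 →
      (e φ').1 = MulAut.conjNormal (H := G) γ • (e φ).1) ∧
    ∀ φ, colW red (e φ).1 = colI φ.1) ∧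
  ∀ c : Col F G, (Nat.card {φ : IB F G // colI φ = c} : ℤ) ≡
    Nat.card {κ : WC p G // colW red κ = c}
    [ZMOD G.relIndex ((MulAction.stabilizer (MulAut G) c).comap (MulAut.conjNormal (H := G)))]

theorem stable_of (hnfr : S_NFR) (hcng : S_CNG) [Fact p.Prime] [IsAlgClosed F] [CharP F p]
    (red : integralClosure ℤ ℂ →+* F) (G : Subgroup Γ) [hG : G.Normal]
    (hp : IsPGroup p (Γ ⧸ G))
    (h : ∀ L : Subgroup Γ, G < L → Navarro p red (G.subgroupOf L)) : Stable p red G := by
  have hfW : Finite (WC p G) := Quotient.finite _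
  let iA : MulAction Γ (IB F G) := MulAction.compHom _ (MulAut.conjNormal (H := G))
  let iB : MulAction Γ (WC p G) := MulAction.compHom _ (MulAut.conjNormal (H := G))
  let iC : MulAction Γ (Col F G) := MulAction.compHom _ (MulAut.conjNormal (H := G))
  have hA : ∀ (γ : Γ) (φ : IB F G), γ • φ = MulAut.conjNormal (H := G) γ • φ := fun _ _ => rfl
  have hB : ∀ (γ : Γ) (κ : WC p G), γ • κ = MulAut.conjNormal (H := G) γ • κ := fun _ _ => rfl
  have hGA : ∀ x ∈ G, ∀ φ : IB F G, x • φ = φ := by
    intro x hx φ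
    rw [hA]
    have := conjNormal_mem G ⟨x, hx⟩
    rw [this, ib_conj]
  have hGB : ∀ x ∈ G, ∀ κ : WC p G, x • κ = κ := by
    intro x hx κ
    rw [hB]
    have := conjNormal_mem G ⟨x, hx⟩
    rw [this, wc_conj]
  have hIe : ∀ (γ : Γ) (φ : IB F G), colI (γ • φ) = γ • colI φ := fun γ φ => colI_smul _ φ
  have hWe : ∀ (γ : Γ) (κ : WC p G), colW red (γ • κ) = γ • colW red κ :=
    fun γ κ => colW_smul red _ κ
  have h1 := hnfr Γ G (IB F G) (WC p G) (Col F G) colI (colW red) hIe hWe ?_
  · obtain ⟨e, he1, he2⟩ := h1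
    have h2 := hcng Γ G (IB F G) (WC p G) (Col F G) colI (colW red) hIe hWe hGA hGB ⟨e, he2⟩
    exact ⟨⟨e, fun γ φ φ' hφ => he1 γ φ φ' hφ, he2⟩, h2⟩
  · intro H hH col
    have hlt : G < G ⊔ H := by
      rw [lt_iff_le_and_ne]
      refine ⟨le_sup_left, fun h3 => hH ?_⟩
      rw [h3]
      exact le_sup_right
    have hLW := (star red G hp (G ⊔ H) le_sup_left).1 (h _ hlt)
    have h2 := fibre_eq (p := p) red (αL G (G ⊔ H)) hLW col
    have e1 : Nat.card {φ : IB F G // colI φ = col ∧ ∀ h ∈ H, h • φ = φ} =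
        Nat.card {φ : IB F G // colI φ = col ∧ ∀ γ : ↥(G ⊔ H), αL G (G ⊔ H) γ • φ = φ} := by
      refine Nat.card_congr (Equiv.subtypeEquivRight fun φ => and_congr_right fun _ => ?_)
      constructor
      · intro h3 γ
        have h4 : G ⊔ H ≤ MulAction.stabilizer Γ φ :=
          sup_le (fun g hg => hGA g hg φ) fun x hx => h3 x hx
        exact h4 γ.2
      · intro h3 x hx
        exact h3 ⟨x, Subgroup.mem_sup_right hx⟩
    have e2 : Nat.card {κ : WC p G // colW red κ = col ∧ ∀ h ∈ H, h • κ = κ} =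
        Nat.card {κ : WC p G // colW red κ = col ∧ ∀ γ : ↥(G ⊔ H), αL G (G ⊔ H) γ • κ = κ} := by
      refine Nat.card_congr (Equiv.subtypeEquivRight fun κ => and_congr_right fun _ => ?_)
      constructor
      · intro h3 γ
        have h4 : G ⊔ H ≤ MulAction.stabilizer Γ κ :=
          sup_le (fun g hg => hGB g hg κ) fun x hx => h3 x hx
        exact h4 γ.2
      · intro h3 x hx
        exact h3 ⟨x, Subgroup.mem_sup_right hx⟩
    rw [e1, e2]
    exact h2

end

end Pool.Agent.Q18.LF
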