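import Pool.Agent.Q18.LF.Fin2

/-!
# The error term of the equality of Knörr and Robinson, block by block
-/

set_option autoImplicit false

open scoped Classical BigOperators

noncomputable section

set_option linter.unusedSectionVars false
set_option linter.unusedVariables false

namespace Pool.Agent.Q18.LF

open Pool.Agent.Q18.NB
open Pool.Agent.Q18.EQ
open Pool.Agent.Y63.NV
open Pool.Agent.Y63.KR
open Pool.Agent.Y63.AWC (IsIrreducibleCharacter pSubgroupSetoid irr_comp)
open Pool.Agent.Y286.NV (orbit_weights sup_conj exists_sep blkF wtF ZG isWt_comp res_classFun)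
open Pool.Agent.Y171.NV (card_mul_alt numIrrInd_conj irr_fin wt_fin)

section gen

variable {F : Type} [Field F] {J J' : Type} [Group J] [Group J'] [Finite J] [Finite J']

/-- the error term of the block `B` -/
def eB (p : ℕ) (red : integralClosure ℤ ℂ →+* F) {J : Type} [Group J] (B : (J → F) → F) : ℤ :=
  alternatingSum p J (fun H => (numIrrInd red H B : ℤ)) - numDzBlock p red B

theorem cf_iso (e : J ≃* J') {f : J' → F} (hf : IsClassFun f) : IsClassFun (fun x => f (e x)) := by
  intro g x
  change f (e (g * x * g⁻¹)) = f (e x)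
  rw [map_mul, map_mul, map_inv, hf]

theorem cf_iso' (e : J ≃* J') {f : J → F} (hf : IsClassFun f) :
    IsClassFun (fun x => f (e.symm x)) := by
  intro g x
  change f (e.symm (g * x * g⁻¹)) = f (e.symm x)
  rw [map_mul, map_mul, map_inv, hf]

theorem eB_iso (p : ℕ) (red : integralClosure ℤ ℂ →+* F) (e : J ≃* J') {B : (J → F) → F}
    {B' : (J' → F) → F} (h : ∀ f : J' → F, IsClassFun f → B' f = B (fun x => f (e x))) :
    eB p red B' = eB p red B := by
  have hR : ∀ (K : Type) [Group K] (i : K → J) (R : (K → ℂ) → Prop),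
      Nat.card {χ : K → ℂ // R χ ∧ ∀ f : J' → F, IsClassFun f →
        centralValue red χ (fun x => f (e (i x))) = B' f} =
      Nat.card {χ : K → ℂ // R χ ∧ ∀ f : J → F, IsClassFun f →
        centralValue red χ (fun x => f (i x)) = B f} := by
    intro K _ i R
    refine Nat.card_congr (Equiv.subtypeEquivRight fun χ => and_congr_right fun _ => ?_)
    constructor
    · intro h1 f hf
      have h2 := h1 (fun y => f (e.symm y)) (cf_iso' e hf)
      rw [h _ (cf_iso' e hf)] at h2
      simp only [e.symm_apply_apply] at h2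
      exact h2
    · intro h1 f hf
      rw [h f hf]
      exact h1 _ (cf_iso e hf)
  unfold eB
  congr 1
  · refine alt_iso p e _ _ (fun g H => by rw [numIrrInd_conj]) (fun g H => by rw [numIrrInd_conj])
      fun H => ?_
    let eH : H ≃* H.map e.toMonoidHom := H.equivMapOfInjective e.toMonoidHom e.injective
    have h1 := cnt_iso red eH (fun f : J' → F => IsClassFun f) (fun f (x : H) => f (e x))
      (fun f (x : H.map e.toMonoidHom) => f x) (fun f => B' f) (fun f hf g x => hf g x)
      (fun f hf x => rfl) IsIrreducibleCharacter IsIrreducibleCharacter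
      (fun χ h => irr_comp eH h) (fun χ h => irr_comp eH.symm h) (fun χ h => h)
    have h2 := hR H (fun x => (x : J)) IsIrreducibleCharacter
    unfold numIrrInd
    exact_mod_cast h1.trans h2
  · have h1 := cnt_iso red e (fun f : J' → F => IsClassFun f) (fun f (x : J) => f (e x))
      (fun f (x : J') => f x) (fun f => B' f) (fun f hf g x => hf g x)
      (fun f hf x => rfl) (IsWt p ⊥) (IsWt p ⊥)
      (fun χ h => isWt_comp e (fun x => by
        rw [Subgroup.mem_bot, Subgroup.mem_bot, map_eq_one_iff _ e.injective]) h)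
      (fun χ h => isWt_comp e.symm (fun x => by
        rw [Subgroup.mem_bot, Subgroup.mem_bot, map_eq_one_iff _ e.symm.injective]) h)
      (fun χ h => h.irr)
    have h2 := hR J (fun x => x) (IsWt p ⊥)
    unfold numDzBlock
    exact_mod_cast h1.trans h2

theorem block_iso (e : J ≃* J') {B' : (J' → F) → F} (hB : IsBlock B') :
    IsBlock (fun f : J → F => B' (fun y => f (e.symm y))) := by
  refine ⟨fun f g hf hg => hB.add _ _ (cf_iso' e hf) (cf_iso' e hg),
    fun a f hf => hB.smul a _ (cf_iso' e hf), ?_, fun f g hf hg => ?_⟩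
  · have h1 : (fun y => (Pi.single 1 1 : J → F) (e.symm y)) = Pi.single 1 1 := by
      funext y
      by_cases hy : y = 1
      · rw [hy, map_one, Pi.single_eq_same, Pi.single_eq_same]
      · have h2 : e.symm y ≠ 1 := fun h => hy ((map_eq_one_iff _ e.symm.injective).1 h)
        rw [Pi.single_eq_of_ne hy, Pi.single_eq_of_ne h2]
    change B' (fun y => (Pi.single 1 1 : J → F) (e.symm y)) = 1
    rw [h1]
    exact hB.one
  · have h1 : (fun y => conv f g (e.symm y)) =
        conv (fun y => f (e.symm y)) (fun y => g (e.symm y)) := by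
      funext y
      unfold conv
      rw [← finsum_comp_equiv e.toEquiv]
      refine finsum_congr fun x => ?_
      change f x * g (x⁻¹ * e.symm y) = f (e.symm (e x)) * g (e.symm ((e x)⁻¹ * y))
      rw [e.symm_apply_apply, map_mul, map_inv, e.symm_apply_apply]
    change B' (fun y => conv f g (e.symm y)) = _
    rw [h1]
    exact hB.mul _ _ (cf_iso' e hf) (cf_iso' e hg)

theorem krb_iff_eB (p : ℕ) (red : integralClosure ℤ ℂ →+* F) :
    KRB p red J ↔ ∀ B : (J → F) → F, IsBlock B → eB p red B = 0 := by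
  unfold KRB eB
  exact forall₂_congr fun B hB => sub_eq_zero.symm

theorem krb_iso (p : ℕ) (red : integralClosure ℤ ℂ →+* F) (e : J ≃* J') (h : KRB p red J) :
    KRB p red J' := by
  rw [krb_iff_eB] at h ⊢
  intro B' hB'
  have h1 := h _ (block_iso e hB')
  rw [← h1]
  refine eB_iso p red e fun f hf => ?_
  simp only [e.apply_symm_apply]

end gen

section orb

variable {p : ℕ} [Fact p.Prime] {F : Type} [Field F] [IsAlgClosed F] [CharP F p]
  {Γ : Type} [Group Γ] [Finite Γ] {G : Subgroup Γ}

/-- the conjugate blocks of `G` -/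
theorem block_conj [G.Normal] (γ : Γ) {b : (G → F) → F} (hb : IsBlock b) :
    IsBlock (fun f : G → F => b (fun x => f (MulAut.conjNormal γ x))) := by
  have h1 := block_iso (MulAut.conjNormal (H := G) γ)⁻¹ hb
  refine h1

/-- the colour of a block -/
def cob (b : (G → F) → F) : Col F G := fun f => b f.1

instance actCol (G : Subgroup Γ) [G.Normal] : MulAction Γ (Col F G) :=
  MulAction.compHom _ (MulAut.conjNormal (H := G))

theorem actCol_apply [G.Normal] (γ : Γ) (c : Col F G) (f : {f : G → F // IsClassFun f}) :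
    (γ • c) f = c (cfa (MulAut.conjNormal γ) f) := rfl

/-- counting by the orbit -/
theorem cnt_orb [hG : G.Normal] (red : integralClosure ℤ ℂ →+* F) {K : Type} [Group K] [Finite K]
    (i : K → G) (R : (K → ℂ) → Prop) (hR : ∀ χ, R χ → IsIrreducibleCharacter χ)
    (hblk : ∀ χ, R χ → IsBlock (fun f : G → F => centralValue red χ (fun x => f (i x))))
    {b : (G → F) → F} (hb : IsBlock b) {B' : (Γ → F) → F}
    (hB' : ∀ z : Γ → F, InZ G z → B' z = b (fun x : G => z x))
    [Fintype (MulAction.orbit Γ (cob b))] :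
    Nat.card {χ : K → ℂ // R χ ∧ ∀ z : Γ → F, InZ G z →
        centralValue red χ (fun x => z (i x)) = B' z} =
      ∑ c : MulAction.orbit Γ (cob b), Nat.card {χ : K → ℂ // R χ ∧
        ∀ f : {f : G → F // IsClassFun f}, centralValue red χ (fun x => f.1 (i x)) = c.1 f} := by
  have hInf : Infinite F := inferInstance
  let S : Type := {χ : K → ℂ // R χ ∧ ∀ z : Γ → F, InZ G z →
        centralValue red χ (fun x => z (i x)) = B' z}
  have hK := irr_fin K
  have hSf : Finite S := Finite.of_injective
    (fun χ : S => (⟨χ.1, hR _ χ.2.1⟩ : {χ : K → ℂ // IsIrreducibleCharacter χ}))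
    (fun a b h => Subtype.ext (congrArg (fun t : {χ : K → ℂ // IsIrreducibleCharacter χ} =>
      t.1) h))
  let q : S → Col F G := fun χ f => centralValue red χ.1 (fun x => f.1 (i x))
  have hmem : ∀ χ : S, q χ ∈ MulAction.orbit Γ (cob b) := by
    intro χ
    obtain ⟨γ, hγ⟩ := conj_of_agree (MulAut.conjNormal (H := G)) hb (hblk χ.1 χ.2.1)
      (cl := cob b) (cb := q χ)
      (fun f => rfl) (fun f => rfl) (fun z hz => by
        obtain ⟨w, hw, rfl⟩ := ext_zero G hz.2
        rw [← hB' w hw]
        exact (χ.2.2 w hw).symm)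
    exact MulAction.mem_orbit_iff.2 ⟨γ, hγ.symm⟩
  let o : S → MulAction.orbit Γ (cob b) := fun χ => ⟨q χ, hmem χ⟩
  have h1 : Nat.card S = ∑ c, Nat.card {χ : S // o χ = c} := by
    rw [← Nat.card_congr (Equiv.sigmaFiberEquiv o), Nat.card_sigma]
  change Nat.card S = _
  rw [h1]
  refine Finset.sum_congr rfl fun c _ => ?_
  refine Nat.card_congr
    { toFun := fun χ => ⟨χ.1.1, χ.1.2.1, fun f =>
        congrFun (congrArg (fun t : MulAction.orbit Γ (cob b) => t.1) χ.2) f⟩
      invFun := fun χ => ⟨⟨χ.1, χ.2.1, ?_⟩, ?_⟩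
      left_inv := fun χ => rfl
      right_inv := fun χ => rfl }
  · intro z hz
    obtain ⟨γ, hγ⟩ := MulAction.mem_orbit_iff.1 c.2
    have h2 := χ.2.2 ⟨fun x : G => z x, res_classFun hz G⟩
    rw [hB' z hz]
    refine h2.trans ((congrFun hγ.symm ⟨fun x : G => z x, res_classFun hz G⟩).trans ?_)
    change b (fun x : G => z (MulAut.conjNormal γ x : G)) = _
    congr 1
    funext x
    rw [MulAut.conjNormal_apply, hz.conj]
  · apply Subtype.ext
    funext f
    exact χ.2.2 f

/-- **the error terms of the blocks below an invariant functional** -/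
theorem orb_err [hG : G.Normal] (red : integralClosure ℤ ℂ →+* F)
    {b : (G → F) → F} (hb : IsBlock b) {B' : (Γ → F) → F}
    (hB' : ∀ z : Γ → F, InZ G z → B' z = b (fun x : G => z x)) :
    alternatingSum p G (fun H => (numIrrG red G B' H : ℤ)) - numDzG p red G B' =
      Nat.card (MulAction.orbit Γ (cob b)) * eB p red b := by
  have hof : Finite (MulAction.orbit Γ (cob b)) := Finite.Set.finite_range _
  have : Fintype (MulAction.orbit Γ (cob b)) := Fintype.ofFinite _
  have hQf : Fintype (Quotient (chainSetoid p G)) := Fintype.ofFinite _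
  let kc : Subgroup G → Col F G → ℕ := fun K c => Nat.card {χ : K → ℂ //
    IsIrreducibleCharacter χ ∧ ∀ f : {f : G → F // IsClassFun f},
      centralValue red χ (fun x : K => f.1 x) = c f}
  let dc : Col F G → ℕ := fun c => Nat.card {χ : G → ℂ //
    IsWt p (⊥ : Subgroup G) χ ∧ ∀ f : {f : G → F // IsClassFun f},
      centralValue red χ (fun x => f.1 x) = c f}
  have h1 : ∀ σ : Set (Subgroup G), IsPChain p σ → numIrrG red G B' (chainStabilizer σ) =
      ∑ c : MulAction.orbit Γ (cob b), kc (chainStabilizer σ) c.1 := by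
    intro σ hσ
    exact cnt_orb red (fun x : chainStabilizer σ => (x : G)) IsIrreducibleCharacter
      (fun χ h => h) (fun χ h => Pool.Agent.Q18.K.s_kblk p F red G σ χ hσ h) hb hB'
  have h2 : numDzG p red G B' = ∑ c : MulAction.orbit Γ (cob b), dc c.1 :=
    cnt_orb red (fun x : G => x) (IsWt p (⊥ : Subgroup G))
      (fun χ h => h.irr) (fun χ h => Pool.Agent.Y930.NV.cvh F red G χ h.irr) hb hB'
  have h3 : ∀ c : MulAction.orbit Γ (cob b),
      alternatingSum p G (fun K => (kc K c.1 : ℤ)) - dc c.1 = eB p red b := by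
    intro c
    obtain ⟨γ, hγ⟩ := MulAction.mem_orbit_iff.1 c.2
    have h4 : eB p red (fun f : G → F => b (fun x => f (MulAut.conjNormal γ x))) =
        eB p red b := eB_iso p red (MulAut.conjNormal (H := G) γ) fun f hf => rfl
    have h5 : ∀ f : {f : G → F // IsClassFun f},
        c.1 f = b (fun x => f.1 (MulAut.conjNormal γ x)) := by
      intro f
      rw [← hγ, actCol_apply]
      rfl
    rw [← h4]
    unfold eB
    congr 1
    · congr 1
      funext K
      unfold numIrrInd
      norm_cast
      refine Nat.card_congr (Equiv.subtypeEquivRight fun χ => and_congr_right fun _ => ?_)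
      constructor
      · intro h6 f hf
        exact (h6 ⟨f, hf⟩).trans (h5 ⟨f, hf⟩)
      · intro h6 f
        exact (h6 f.1 f.2).trans (h5 f).symm
    · unfold numDzBlock
      norm_cast
      refine Nat.card_congr (Equiv.subtypeEquivRight fun χ => and_congr_right fun _ => ?_)
      constructor
      · intro h6 f hf
        exact (h6 ⟨f, hf⟩).trans (h5 ⟨f, hf⟩)
      · intro h6 f
        exact (h6 f.1 f.2).trans (h5 f).symm
  have h4 : alternatingSum p G (fun H => (numIrrG red G B' H : ℤ)) =
      ∑ c : MulAction.orbit Γ (cob b), alternatingSum p G (fun K => (kc K c.1 : ℤ)) := by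
    unfold alternatingSum
    rw [finsum_eq_sum_of_fintype]
    have h5 : ∀ c : MulAction.orbit Γ (cob b), (∑ᶠ d : Quotient (chainSetoid p G),
        (-1 : ℤ) ^ d.out.1.ncard * (kc (chainStabilizer d.out.1) c.1 : ℤ)) =
        ∑ d : Quotient (chainSetoid p G),
        (-1 : ℤ) ^ d.out.1.ncard * (kc (chainStabilizer d.out.1) c.1 : ℤ) :=
      fun c => finsum_eq_sum_of_fintype _
    rw [Finset.sum_congr rfl fun c _ => h5 c, Finset.sum_comm]
    refine Finset.sum_congr rfl fun d _ => ?_
    rw [← Finset.mul_sum]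
    congr 1
    have h6 := h1 d.out.1 d.out.2
    change (numIrrG red G B' (chainStabilizer d.out.1) : ℤ) = _
    rw [h6]
    push_cast
    rfl
  rw [h4, h2]
  push_cast
  rw [← Finset.sum_sub_distrib, Finset.sum_congr rfl fun c _ => h3 c, Finset.sum_const,
    Finset.card_univ, nsmul_eq_mul, Nat.card_eq_fintype_card]

end orb

section index

variable {p : ℕ} [Fact p.Prime] {F : Type} [Field F] [IsAlgClosed F] [CharP F p]
  {Γ : Type} [Group Γ] [Finite Γ] {G : Subgroup Γ}

theorem z_index (red : integralClosure ℤ ℂ →+* F) [hG : G.Normal] (hc : Nat.card (Γ ⧸ G) = p)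
    {z : Γ → F} (hz : InZ G z) (c : F) :
    KA p red z c - (Nat.card Γ : ℤ) * Nw p red (⊥ : Subgroup Γ) z c =
      (KA p red (fun x : G => z x) c -
        (Nat.card G : ℤ) * Nw p red (⊥ : Subgroup G) (fun x => z x) c) -
      ∑ᶠ U : Subgroup Γ, if IsPGroup p U ∧ G ⊔ U = ⊤ ∧ G ⊓ U = ⊥ then
        (KA p red (pz U z) c -
          (Nat.card (NQ U) : ℤ) * Nw p red (⊥ : Subgroup (NQ U)) (pz U z) c) else 0 :=
  err_index idx spl res px nrm cor quo cls dzx red hc hz c

theorem cov_congr (red : integralClosure ℤ ℂ →+* F) {U : Subgroup Γ} {b b' : (G → F) → F}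
    (h : ∀ z : Γ → F, InZ G z → b (fun x : G => z x) = b' (fun x : G => z x)) :
    altB p red G U b - numDzCov p red G U b = altB p red G U b' - numDzCov p red G U b' := by
  have h1 : ∀ H, numIrrCov red G U b H = numIrrCov red G U b' H := by
    intro H
    unfold numIrrCov
    refine Nat.card_congr (Equiv.subtypeEquivRight fun χ => and_congr_right fun _ => ?_)
    exact forall₂_congr fun z hz => by rw [h z hz]
  have h2 : numDzCov p red G U b = numDzCov p red G U b' := by
    unfold numDzCov
    refine Nat.card_congr (Equiv.subtypeEquivRight fun χ => and_congr_right fun _ => ?_)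
    exact forall₂_congr fun z hz => by rw [h z hz]
  unfold altB
  simp only [h1, h2]

/-- **the formula for blocks, index `p`** -/
theorem e_index (red : integralClosure ℤ ℂ →+* F) [hG : G.Normal] (hc : Nat.card (Γ ⧸ G) = p)
    {b : (G → F) → F} {B : (Γ → F) → F} (hb : IsBlock b) (hB : IsBlock B)
    (hbB : ∀ z : Γ → F, InZ G z → B z = b (fun x : G => z x)) :
    (p : ℤ) * eB p red B = Nat.card (MulAction.orbit Γ (cob b)) * eB p red b -
      ∑ᶠ c : Quotient (pSubgroupSetoid p Γ), if G ⊔ c.out.1 = ⊤ ∧ G ⊓ c.out.1 = ⊥ then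
        altB p red G c.out.1 b - numDzCov p red G c.out.1 b else 0 := by
  have h1 := sepx p F red Γ G hc (fun z hz c => z_index red hc hz c) B hB
  rw [← orb_err red hb hbB]
  refine h1.trans ?_
  congr 1
  refine finsum_congr fun c => ?_
  by_cases h : G ⊔ c.out.1 = ⊤ ∧ G ⊓ c.out.1 = ⊥
  · rw [if_pos h, if_pos h]
    exact cov_congr (p := p) red fun z hz => (resB_eq G B hz).trans (hbB z hz)
  · rw [if_neg h, if_neg h]

/-- elements of `ZG` suffice -/
theorem krb_of_z (red : integralClosure ℤ ℂ →+* F) [hG : G.Normal] (hc : Nat.card (Γ ⧸ G) = p)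
    (h : ∀ z : Γ → F, InZ G z → ∀ c : F,
      KA p red z c - (Nat.card Γ : ℤ) * Nw p red (⊥ : Subgroup Γ) z c = 0) : KRB p red Γ := by
  intro B hB
  obtain ⟨z, -, -, -, h4, h5, -, -⟩ := master p red G (blkG G hB)
  set c : F := blkG G hB z with hcdef
  have hz := h z.1 z.2 c
  have e1 : KA p red z.1 c =
      (Nat.card Γ : ℤ) * alternatingSum p Γ (fun H => (numIrrInd red H B : ℤ)) := by
    rw [card_mul_alt (fun H => (numIrrInd red H B : ℤ)) fun g H => by rw [numIrrInd_conj]]
    unfold KA
    refine finsum_congr fun σ => ?_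
    have e2 : Knum red (fun x : chainStabilizer σ.1 => z.1 x) c =
        numIrrInd red (chainStabilizer σ.1) B := by
      rw [hcdef, h4 (chainStabilizer σ.1)]
      unfold numIrrInd
      refine Nat.card_congr (Equiv.subtypeEquivRight fun χ => and_congr_right fun hχ => ?_)
      constructor
      · intro h8 f hf
        exact Pool.Agent.Y63.NV.B286.frob p hc
          (Pool.Agent.Q18.K.s_kblk p F red Γ σ.1 χ σ.2 hχ) hB
          (fun w hw => h8 ⟨w, hw⟩) f hf
      · intro h8 w
        exact h8 w.1 (fun g x => w.2.conj g x)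
    rw [e2]
  have e3 : Nw p red (⊥ : Subgroup Γ) z.1 c = numDzBlock p red B := by
    rw [hcdef, h5]
    unfold numDzBlock
    refine Nat.card_congr (Equiv.subtypeEquivRight fun χ => and_congr_right fun hχ => ?_)
    constructor
    · intro h8 f hf
      exact Pool.Agent.Y63.NV.B286.frob p hc
        (Pool.Agent.Y930.NV.cvh F red Γ χ hχ.irr) hB
        (fun w hw => h8 ⟨w, hw⟩) f hf
    · intro h8 w
      exact h8 w.1 (fun g x => w.2.conj g x)
  rw [e1, e3, ← mul_sub] at hz
  have hpos : (Nat.card Γ : ℤ) ≠ 0 := by exact_mod_cast Nat.card_pos.ne'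
  exact sub_eq_zero.1 ((mul_eq_zero.1 hz).resolve_left hpos)

theorem ka_zero (red : integralClosure ℤ ℂ →+* F) {J : Type} [Group J] [Finite J]
    (h : KRB p red J) {z : J → F} (hz : IsClassFun z) (c : F) :
    KA p red z c - (Nat.card J : ℤ) * Nw p red (⊥ : Subgroup J) z c = 0 :=
  sub_eq_zero.2 ((Pool.Agent.Q18.K.s_kfin p F red J).1 h z c hz)

/-- **index `p`** -/
theorem krb_index (red : integralClosure ℤ ℂ →+* F) [hG : G.Normal] (hc : Nat.card (Γ ⧸ G) = p)
    (hU : ∀ U : Subgroup Γ, IsPGroup p U → G ⊔ U = ⊤ → G ⊓ U = ⊥ → KRB p red (NQ U)) :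
    KRB p red Γ ↔ KRB p red G := by
  have key : ∀ z : Γ → F, InZ G z → ∀ c : F,
      KA p red z c - (Nat.card Γ : ℤ) * Nw p red (⊥ : Subgroup Γ) z c =
      KA p red (fun x : G => z x) c -
        (Nat.card G : ℤ) * Nw p red (⊥ : Subgroup G) (fun x => z x) c := by
    intro z hz c
    rw [z_index red hc hz c]
    have h1 : (∑ᶠ U : Subgroup Γ, if IsPGroup p U ∧ G ⊔ U = ⊤ ∧ G ⊓ U = ⊥ then
        (KA p red (pz U z) c -
          (Nat.card (NQ U) : ℤ) * Nw p red (⊥ : Subgroup (NQ U)) (pz U z) c) else 0) = 0 := by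
      refine finsum_eq_zero_of_forall_eq_zero fun U => ?_
      by_cases h : IsPGroup p U ∧ G ⊔ U = ⊤ ∧ G ⊓ U = ⊥
      · rw [if_pos h, ka_zero red (hU U h.1 h.2.1 h.2.2) (pz_class hz U) c]
      · rw [if_neg h]
    rw [h1, sub_zero]
  constructor
  · intro h
    rw [krb_iff_eB]
    intro b hb
    obtain ⟨z, -, -, -, -, -, h6, h7⟩ := master p red G (blkF (G := G) hb)
    have hb' : ∀ w : ZG F G, (fun w : Γ → F => b (fun x : G => w x)) w.1 = blkF hb w :=
      fun w => rfl
    set c : F := blkF hb z with hcdef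
    have h8 := key z.1 z.2 c
    rw [ka_zero red h (cfz z.2) c] at h8
    have e4 : KA p red (fun x : G => z.1 x) c = (Nat.card G : ℤ) *
        alternatingSum p G (fun H => (numIrrG red G (fun w : Γ → F => b (fun x : G => w x)) H : ℤ)) := by
      rw [cmag]
      unfold KA
      refine finsum_congr fun σ => ?_
      rw [← h6 (chainStabilizer σ.1) _ hb']
    have e5 : Nw p red (⊥ : Subgroup G) (fun x : G => z.1 x) c =
        numDzG p red G (fun w : Γ → F => b (fun x : G => w x)) := h7 _ hb'
    rw [e4, e5, ← mul_sub, orb_err red hb (fun z hz => rfl)] at h8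
    have hpos : (Nat.card G : ℤ) ≠ 0 := by exact_mod_cast Nat.card_pos.ne'
    have h9 := (mul_eq_zero.1 h8.symm).resolve_left hpos
    have hof : Finite (MulAction.orbit Γ (cob b)) := Finite.Set.finite_range _
    have hone : Nonempty (MulAction.orbit Γ (cob b)) := ⟨⟨_, MulAction.mem_orbit_self _⟩⟩
    have hpos2 : (Nat.card (MulAction.orbit Γ (cob b)) : ℤ) ≠ 0 := by
      exact_mod_cast Nat.card_pos.ne'
    exact (mul_eq_zero.1 h9).resolve_left hpos2
  · intro h
    refine krb_of_z red hc fun z hz c => ?_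
    rw [key z hz c]
    exact ka_zero red h (res_classFun hz G) c

end index

end Pool.Agent.Q18.LF
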