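import Pool.Agent.Q18.LF.Asm2
import Pool.Agent.Q18.LF.Asm3
import Pool.Agent.Q18.NB.Comb
import Pool.Agent.Q18.NB.Cor
import Pool.Agent.Q18.NB.Quo
import Pool.Agent.Q18.NB.Px
import Pool.Agent.Q18.NB.Cnv
import Pool.Agent.Q18.NB.Krn
import Pool.Agent.Q18.NB.Cnt
import Pool.Agent.Q18.NB.Sepx
import Pool.Agent.Q18.NB.Pbl
import Pool.Agent.Q66.NB.Nfr
import Pool.Agent.Q285.NB.Krp
import Pool.Agent.Q18.K.Awc
import Pool.Agent.Y63.NV.Base48

/-!
# The local formula: the theorems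
-/

set_option autoImplicit false

open scoped Classical BigOperators

noncomputable section

set_option linter.unusedSectionVars false

namespace Pool.Agent.Q18.LF

open Pool.Agent.Q18.NB
open Pool.Agent.Y63.NV
open Pool.Agent.Y63.KR
open Pool.Agent.Y63.AWC (IsIrreducibleCharacter pSubgroupSetoid)
open Pool.Agent.Y286.NV (orbit_weights sup_conj exists_sep blkF wtF ZG)

section

variable {p : ℕ} [Fact p.Prime] {F : Type} [Field F] [IsAlgClosed F] [CharP F p]
  {Γ : Type} [Group Γ] [Finite Γ] {G : Subgroup Γ}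

/-- the alternating sum over the chains of `N_Γ(Q)/Q`, the characters in blocks which induce blocks
covering `B` -/
def altB (p : ℕ) (red : integralClosure ℤ ℂ →+* F) (G Q : Subgroup Γ) (B : (G → F) → F) : ℤ :=
  alternatingSum p (NQ Q) (fun H => (numIrrCov red G Q B H : ℤ))

theorem fm (red : integralClosure ℤ ℂ →+* F) [hG : G.Normal] (hG1 : G ≠ ⊤)
    (hp : IsPGroup p (Γ ⧸ G)) {B : (G → F) → F} (hB : IsBlock B) (hBi : IsInvBlock G B) :
    (numIBr G B : ℤ) = ∑ᶠ c : Quotient (pSubgroupSetoid p Γ), if G ⊔ c.out.1 = ⊤ then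
      altB p red G c.out.1 B else 0 :=
  block_formula alt nrm cor quo cls cnv cma sepk red hG1 hp hB hBi

theorem z_fm (red : integralClosure ℤ ℂ →+* F) [hG : G.Normal] (hG1 : G ≠ ⊤)
    (hp : IsPGroup p (Γ ⧸ G)) {z : Γ → F} (hz : InZ G z) (c : F) :
    Lsum G ⊤ z c = ∑ᶠ Q : Subgroup Γ,
      if IsPGroup p Q ∧ G ⊔ Q = ⊤ then (Nat.card Q : ℤ) * KA p red (pz Q z) c else 0 :=
  z_formula alt nrm cor quo cls red hG1 hp hz c

/-- weights of `N_Γ(Q)` and characters of defect zero of `N_Γ(Q)/Q` -/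
theorem dz_eq (red : integralClosure ℤ ℂ →+* F) {Q : Subgroup Γ} (hQ : IsPGroup p Q)
    {B : (G → F) → F} (hB : IsBlock B) : numDz p red G Q B = numDzCov p red G Q B := by
  have hInf : Infinite F := inferInstance
  have h1 : Finite {χ : NQ Q → ℂ // IsWt p (⊥ : Subgroup (NQ Q)) χ} :=
    Pool.Agent.Y171.NV.wt_fin p (NQ Q)
  have h2 : Finite {χ : Subgroup.normalizer (Q : Set Γ) → ℂ //
      IsWt p (Q.subgroupOf (Subgroup.normalizer (Q : Set Γ))) χ} :=
    ((Pool.Agent.Y914.NV.irr ℂ (Subgroup.normalizer (Q : Set Γ))).1.subset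
      (fun χ h => h.irr)).to_subtype
  obtain ⟨z, hz⟩ := exists_sep (Sum.elim
    (fun χ : {χ : NQ Q → ℂ // IsWt p (⊥ : Subgroup (NQ Q)) χ} => cvL red χ.1 ∘ₗ tQ F G Q)
    (fun χ : {χ : Subgroup.normalizer (Q : Set Γ) → ℂ //
      IsWt p (Q.subgroupOf (Subgroup.normalizer (Q : Set Γ))) χ} => wtF G red _ χ.1)) (blkF hB)
  have e1 : numDz p red G Q B = Nw p red (Q.subgroupOf (Subgroup.normalizer (Q : Set Γ)))
      (fun x => z.1 x) (blkF hB z) := by
    unfold numDz Nw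
    refine Nat.card_congr (Equiv.subtypeEquivRight fun χ => and_congr_right fun hχ => ?_)
    constructor
    · intro h
      exact h z.1 z.2
    · intro h w hw
      exact LinearMap.congr_fun (hz (Sum.inr ⟨χ, hχ⟩) h) ⟨w, hw⟩
  have e2 : numDzCov p red G Q B = Nw p red (⊥ : Subgroup (NQ Q)) (pz Q z.1) (blkF hB z) := by
    unfold numDzCov Nw
    refine Nat.card_congr (Equiv.subtypeEquivRight fun χ => and_congr_right fun hχ => ?_)
    constructor
    · intro h
      exact h z.1 z.2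
    · intro h w hw
      exact LinearMap.congr_fun (hz (Sum.inl ⟨χ, hχ⟩) h) ⟨w, hw⟩
  rw [e1, e2]
  exact nwq p F red Γ z.1 _ Q hQ (fun g x => z.2.conj g x)

/-- the sum over `Θ_B` -/
theorem theta_sum (red : integralClosure ℤ ℂ →+* F) [G.Normal] {B : (G → F) → F}
    (hB : IsBlock B) (hI : IsInvBlock G B) :
    (∑ᶠ c : Quotient (pSubgroupSetoid p Γ),
      if G ⊔ c.out.1 = ⊤ ∧ InDefect p G B c.out.1 then numDz p red G c.out.1 B else 0) =
    ∑ᶠ c : Quotient (pSubgroupSetoid p Γ),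
      if G ⊔ c.out.1 = ⊤ then numDz p red G c.out.1 B else 0 := by
  refine finsum_congr fun c => ?_
  by_cases h1 : G ⊔ c.out.1 = ⊤
  · by_cases h2 : InDefect p G B c.out.1
    · rw [if_pos ⟨h1, h2⟩, if_pos h1]
    · rw [if_neg (fun h => h2 h.2), if_pos h1]
      by_contra h3
      exact h2 (wdef' p F red Γ G B hB hI c.out.1 c.out.2 (fun h => h3 h.symm))
  · rw [if_neg (fun h => h1 h.1), if_neg h1]

/-- **the defect of Navarro's equality is the sum of the local defects** -/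
theorem dfm (red : integralClosure ℤ ℂ →+* F) [hG : G.Normal] (hG1 : G ≠ ⊤)
    (hp : IsPGroup p (Γ ⧸ G)) {B : (G → F) → F} (hB : IsBlock B) (hBi : IsInvBlock G B) :
    (numIBr G B : ℤ) - (∑ᶠ c : Quotient (pSubgroupSetoid p Γ),
      if G ⊔ c.out.1 = ⊤ ∧ InDefect p G B c.out.1 then numDz p red G c.out.1 B else 0 : ℕ) =
      ∑ᶠ c : Quotient (pSubgroupSetoid p Γ), if G ⊔ c.out.1 = ⊤ then
        altB p red G c.out.1 B - numDzCov p red G c.out.1 B else 0 := by
  have : Fintype (Quotient (pSubgroupSetoid p Γ)) := Fintype.ofFinite _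
  rw [theta_sum red hB hBi, fm red hG1 hp hB hBi, finsum_eq_sum_of_fintype,
    finsum_eq_sum_of_fintype, finsum_eq_sum_of_fintype, Nat.cast_sum, ← Finset.sum_sub_distrib]
  refine Finset.sum_congr rfl fun c _ => ?_
  by_cases h : G ⊔ c.out.1 = ⊤
  · rw [if_pos h, if_pos h, if_pos h, dz_eq red c.out.2 hB]
  · rw [if_neg h, if_neg h, if_neg h]
    simp

/-- the local equality from the equality of Knörr and Robinson -/
theorem loc_of_krb (red : integralClosure ℤ ℂ →+* F) {Q : Subgroup Γ}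
    {B : (G → F) → F} (hB : IsBlock B) (h : KRB p red (NQ Q)) :
    altB p red G Q B = numDzCov p red G Q B := by
  obtain ⟨z, -, h2, h3, -⟩ := master p red G (blkF hB)
  have hb : ∀ w : ZG F G, B (fun y : G => w.1 y) = blkF hB w := fun w => rfl
  have h4 := (Pool.Agent.Q18.K.s_kfin p F red (NQ Q)).1 h (pz Q z.1) (blkF hB z)
    (cls F Γ z.1 Q fun g x => z.2.conj g x)
  have hpos : (Nat.card (NQ Q) : ℤ) ≠ 0 := by exact_mod_cast Nat.card_pos.ne'
  refine mul_left_cancel₀ hpos ?_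
  unfold altB
  rw [cma p F red Γ G B Q, ← h3 Q B hb, ← h4]
  refine finsum_congr fun σ => ?_
  rw [h2 Q (chainStabilizer σ.1) B hb]

theorem crit (red : integralClosure ℤ ℂ →+* F) [hG : G.Normal] (hG1 : G ≠ ⊤)
    (hp : IsPGroup p (Γ ⧸ G))
    (h : ∀ Q : Subgroup Γ, IsPGroup p Q → G ⊔ Q = ⊤ → KRB p red (NQ Q)) :
    NavarroTheta p red G :=
  (theta_iff p F red Γ G).2 (criterion alt nrm cor quo cls nwq red hG1 hp h)

/-- the criterion for a class of groups -/
theorem crit_class (red : integralClosure ℤ ℂ →+* F) (X : ∀ (H : Type) [Group H], Prop)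
    (hX : Closed p X)
    (hR : ∀ (H : Type) [Group H] [Finite H], X H → Reduced p H →
      NavarroTheta p red (⊤ : Subgroup H)) [hG : G.Normal] (hG1 : G ≠ ⊤)
    (hp : IsPGroup p (Γ ⧸ G))
    (h : ∀ Q : Subgroup Γ, IsPGroup p Q → G ⊔ Q = ⊤ →
      ∃ N : Subgroup (NQ Q), ∃ _ : N.Normal, X N ∧ IsPGroup p (NQ Q ⧸ N)) :
    NavarroTheta p red G := by
  refine crit red hG1 hp fun Q hQ hGQ => ?_
  obtain ⟨N, hN, hXN, hNp⟩ := h Q hQ hGQ
  have key := bawc_reduction red X hX (fun H _ _ hH hr =>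
    (theta_iff p F red H ⊤).1 (hR H hH hr))
  refine krb_of_bawc Pool.Agent.Q18.K.s_kdimh Pool.Agent.Q18.K.s_kfilt Pool.Agent.Q18.K.s_kfin
    red fun σ _ => ?_
  exact key (Nat.card (chainStabilizer σ)) (chainStabilizer σ) le_rfl
    ((xp_closed p X hX).sub (NQ Q) ⟨N, hN, hXN, hNp⟩ _)

/-- every radical `p`-subgroup `Q` with `G Q = Γ` is a Sylow subgroup -/
theorem crit_syl (red : integralClosure ℤ ℂ →+* F) [hG : G.Normal] (hG1 : G ≠ ⊤)
    (hp : IsPGroup p (Γ ⧸ G))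
    (h : ∀ Q : Subgroup Γ, IsPGroup p Q → G ⊔ Q = ⊤ → (¬ p ∣ Nat.card (NQ Q)) ∨
      ∃ Z : Subgroup (NQ Q), Z.Normal ∧ IsPGroup p Z ∧ Z ≠ ⊥) : NavarroTheta p red G := by
  refine crit red hG1 hp fun Q hQ hGQ => ?_
  rcases h Q hQ hGQ with h1 | ⟨Z, hZ, hZp, hZ1⟩
  · exact Pool.Agent.Q285.NB.krp p F red (NQ Q) h1
  · exact krn p F red (NQ Q) Z hZp hZ1

/-- transfer of the number of the invariant characters -/
theorem tr_num [hG : G.Normal] (hG1 : G ≠ ⊤) (hp : IsPGroup p (Γ ⧸ G)) {H : Subgroup Γ}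
    (hSE : SE p G H) {B : (G → F) → F} (hB : IsBlock B) (hBi : IsInvBlock G B) :
    numIBr G B = numIBrInd G H B :=
  seph p F Γ G H hp (sup_top_of_se hp hSE)
    (fun _ hz c => z_transfer alt nrm cnt lcj hG1 hp hSE hz c) B hB hBi

/-- transfer of the weights -/
theorem wsum_tr (red : integralClosure ℤ ℂ →+* F) [hG : G.Normal] {H : Subgroup Γ}
    (hSE : SE p G H) {z : Γ → F} (hz : InZ G z) (c : F) :
    (Nat.card H : ℤ) * Wsum p red G ⊤ z c = (Nat.card Γ : ℤ) * Wsum p red G H z c := by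
  have h1 := cnt p Γ G H (fun Q => (Nat.card (Subgroup.normalizer (Q : Set Γ)) : ℤ) *
    Nw p red (Q.subgroupOf (Subgroup.normalizer (Q : Set Γ))) (fun x => z x) c) hSE (by
      intro g Q
      have h2 := Pool.Agent.Y63.NV.B48B.nw_conj p red (fun g x => hz.conj g x) c g Q
      have h3 : Nat.card (Subgroup.normalizer (conjSub g Q : Set Γ)) =
          Nat.card (Subgroup.normalizer (Q : Set Γ)) := by
        rw [nrm_conj]
        exact card_conj g _
      change (Nat.card (Subgroup.normalizer (conjSub g Q : Set Γ)) : ℤ) * (Nw p red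
        ((conjSub g Q).subgroupOf (Subgroup.normalizer (conjSub g Q : Set Γ))) (fun x => z x) c : ℤ)
        = _
      rw [h3]
      congr 2
      exact h2.symm)
  have key : ∀ K : Subgroup Γ, (∀ Q : Subgroup Γ, IsPGroup p Q → Q ≤ K → G ⊔ Q = ⊤ →
      Subgroup.normalizer (Q : Set Γ) ≤ K) → Wsum p red G K z c = ∑ᶠ Q : Subgroup Γ,
      if IsPGroup p Q ∧ Q ≤ K ∧ G ⊔ Q = ⊤ then
        (Nat.card (Subgroup.normalizer (Q : Set Γ)) : ℤ) *
    Nw p red (Q.subgroupOf (Subgroup.normalizer (Q : Set Γ))) (fun x => z x) c else 0 := by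
    intro K hK
    unfold Wsum
    refine finsum_congr fun Q => ?_
    by_cases h : IsPGroup p Q ∧ Q ≤ K ∧ G ⊔ Q = ⊤
    · rw [if_pos h, if_pos h, inf_eq_right.2 (hK Q h.1 h.2.1 h.2.2)]
    · rw [if_neg h, if_neg h]
  rw [key H hSE.nrm, ← h1, key ⊤ (fun _ _ _ _ => le_top)]
  congr 1
  refine finsum_congr fun Q => ?_
  by_cases h : IsPGroup p Q ∧ G ⊔ Q = ⊤
  · rw [if_pos ⟨h.1, le_top, h.2⟩, if_pos h]
  · rw [if_neg (fun h' => h ⟨h'.1, h'.2.2⟩), if_neg h]

/-- transfer of Navarro's equality -/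
theorem tr_nav (red : integralClosure ℤ ℂ →+* F) [hG : G.Normal] (hG1 : G ≠ ⊤)
    (hp : IsPGroup p (Γ ⧸ G)) {H : Subgroup Γ} (hSE : SE p G H)
    (h : NavarroTheta p red (G.subgroupOf H)) : NavarroTheta p red G := by
  rw [theta_iff] at h ⊢
  refine fin' p F red Γ G hp fun z hz c => ?_
  have hGH := sup_top_of_se hp hSE
  have hz' : InZ (G.subgroupOf H) (fun x : H => z x) :=
    ⟨fun g x => hz.conj g x, fun x hx => hz.supp x hx⟩
  have h1 := GB.gbase Pool.Agent.Y918.NV.winv p F red H (G.subgroupOf H)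
    (Pool.Agent.Q18.EQ.pgroup_sub hp) h (fun x : H => z x) hz' c
  rw [← parts.trl F Γ G H z c hGH, ← parts.trn p F red Γ G H z c hGH
    (fun h _ x => hz.conj h x)] at h1
  have h2 := z_transfer alt nrm cnt lcj hG1 hp hSE hz c
  have h3 := wsum_tr red hSE hz c
  have hpos : (Nat.card H : ℤ) ≠ 0 := by exact_mod_cast Nat.card_pos.ne'
  refine mul_left_cancel₀ hpos ?_
  rw [h2, h3, h1]

end

end Pool.Agent.Q18.LF
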