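import Pool.Agent.Q18.LF.Fin

/-!
# Bijections up to the regular orbits, and the weight conjecture for `Γ` and for `G`
-/

set_option autoImplicit false

open scoped Classical BigOperators

noncomputable section

set_option linter.unusedSectionVars false
set_option linter.unusedVariables false

namespace Pool.Agent.Q18.LF

open Pool.Agent.Q18.NB
open Pool.Agent.Q18.EQ
open Pool.Agent.Y63.NV
open Pool.Agent.Y63.KR
open Pool.Agent.Y63.AWC (IsIrreducibleCharacter pSubgroupSetoid)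
open Pool.Agent.Y286.NV (orbit_weights sup_conj exists_sep blkF wtF ZG)

section iso

variable {p : ℕ} [Fact p.Prime] {F : Type} [Field F] [IsAlgClosed F] [CharP F p]

/-- the blockwise conjecture and isomorphic groups -/
theorem bawc_iso (red : integralClosure ℤ ℂ →+* F) {J J' : Type} [Group J] [Group J'] [Finite J]
    [Finite J'] (e : J' ≃* J) (h : BAWC p red J) : BAWC p red J' := by
  rw [bawc_iff] at h ⊢
  refine fin' p F red J' ⊤ (pgroup_top p J') fun z' hz' c => ?_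
  have hz : IsClassFun (fun x : J => z' (e.symm x)) := by
    intro g x
    change z' (e.symm (g * x * g⁻¹)) = z' (e.symm x)
    rw [map_mul, map_mul, map_inv, hz'.conj]
  have h1 := base' p F red J h (fun x => z' (e.symm x)) hz c
  have hr : (⊤ : Subgroup J) = e.toMonoidHom.range :=
    (MonoidHom.range_eq_top.2 e.surjective).symm
  let α : J →* MulAut J' := (MulAut.conj : J' →* MulAut J').comp e.symm.toMonoidHom
  have hα : ∀ (γ : J) (x : J'), e.toMonoidHom (α γ x) = γ * e.toMonoidHom x * γ⁻¹ := by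
    intro γ x
    change e (e.symm γ * x * (e.symm γ)⁻¹) = γ * e x * γ⁻¹
    rw [map_mul, map_mul, map_inv, e.apply_symm_apply]
  have h2 := count_I (j₀ := e.toMonoidHom) e.injective hr hα (fun x => z' (e.symm x)) c
  have h3 := count_W (p := p) red (j₀ := e.toMonoidHom) e.injective hr (pgroup_top p J) hα
    (fun x => z' (e.symm x)) c ⟨fun g x => hz g x, fun x hx => absurd trivial hx⟩
  have e1 : (fun x => z' (e.symm (e.toMonoidHom x))) = z' := by
    funext x
    change z' (e.symm (e x)) = z' x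
    rw [e.symm_apply_apply]
  have hcf : IsClassFun z' := fun g x => hz'.conj g x
  rw [← h2, ← h3, e1] at h1
  have hpos : (Nat.card J : ℤ) ≠ 0 := by exact_mod_cast Nat.card_pos.ne'
  have h4 := mul_left_cancel₀ hpos h1
  have h5 := nI_eq (F := F) α ⟨z', hcf⟩ c
  have h6 := nW_eq (p := p) red α ⟨z', hcf⟩ c
  have h7 : Nat.card {φ : IB F J' // colI φ ⟨z', hcf⟩ = c ∧ ∀ γ : J, α γ • φ = φ} =
      Nat.card {φ : IB F J' // colI φ ⟨z', hcf⟩ = c} :=
    Nat.card_congr (Equiv.subtypeEquivRight fun φ =>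
      ⟨fun h => h.1, fun h => ⟨h, fun γ => ib_conj _ φ⟩⟩)
  have h8 : Nat.card {κ : WC p J' // colW red κ ⟨z', hcf⟩ = c ∧ ∀ γ : J, α γ • κ = κ} =
      Nat.card {κ : WC p J' // colW red κ ⟨z', hcf⟩ = c} :=
    Nat.card_congr (Equiv.subtypeEquivRight fun κ =>
      ⟨fun h => h.1, fun h => ⟨h, fun γ => wc_conj _ κ⟩⟩)
  rw [← top_I z' hcf c, ← top_W (p := p) red z' hcf c, ← h7, ← h8, ← h5, ← h6]
  have h9 : (nI F α z' c : ℤ) = nW p red α z' c := h4
  rw [h9]

end iso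

section

variable {p : ℕ} [Fact p.Prime] {F : Type} [Field F] [IsAlgClosed F] [CharP F p]
  {Γ : Type} [Group Γ] [Finite Γ] {G : Subgroup Γ}

/-- the converse of `stable_of` -/
theorem nav_of_stable (red : integralClosure ℤ ℂ →+* F) [hG : G.Normal]
    (hp : IsPGroup p (Γ ⧸ G))
    (h : ∃ e : IBs F G ≃ WCs p G, (∀ (γ : Γ) (φ φ' : IBs F G),
      φ'.1 = MulAut.conjNormal (H := G) γ • φ.1 →
      (e φ').1 = MulAut.conjNormal (H := G) γ • (e φ).1) ∧
      ∀ φ, colW red (e φ).1 = colI φ.1) (L : Subgroup Γ) (hL : G < L) :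
    Navarro p red (G.subgroupOf L) := by
  obtain ⟨e, he1, he2⟩ := h
  obtain ⟨γ₀, hγL, hγG⟩ := SetLike.exists_of_lt hL
  rw [star red G hp L hL.le]
  intro f hf hfi c
  rw [nI_eq (αL G L) ⟨f, hf⟩ c, nW_eq (p := p) red (αL G L) ⟨f, hf⟩ c]
  have hs : ∀ (φ : IBs F G) (γ : Γ), MulAut.conjNormal (H := G) γ • φ.1 = φ.1 ↔
      MulAut.conjNormal (H := G) γ • (e φ).1 = (e φ).1 := by
    intro φ γ
    constructor
    · intro h
      exact (he1 γ φ φ h.symm).symm
    · intro h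
      obtain ⟨γ₁, h1, h2⟩ := φ.2
      have h3 : MulAut.conjNormal (H := G) (γ * γ₁ * γ⁻¹) •
          (MulAut.conjNormal (H := G) γ • φ.1) = MulAut.conjNormal (H := G) γ • φ.1 := by
        rw [← mul_smul, ← map_mul, inv_mul_cancel_right, map_mul, mul_smul, h2]
      have h4 : γ * γ₁ * γ⁻¹ ∉ G := by
        intro h5
        apply h1
        have h6 := hG.conj_mem _ h5 γ⁻¹
        have e7 : γ⁻¹ * (γ * γ₁ * γ⁻¹) * γ⁻¹⁻¹ = γ₁ := by group
        rwa [e7] at h6
      have h5 := he1 γ φ ⟨MulAut.conjNormal (H := G) γ • φ.1, _, h4, h3⟩ rfl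
      rw [h] at h5
      have h6 := e.injective (Subtype.ext h5)
      exact congrArg Subtype.val h6
  have key : ∀ φ : IBs F G, (colI φ.1 ⟨f, hf⟩ = c ∧ ∀ γ : L, αL G L γ • φ.1 = φ.1) ↔
      (colW red (e φ).1 ⟨f, hf⟩ = c ∧ ∀ γ : L, αL G L γ • (e φ).1 = (e φ).1) := by
    intro φ
    have h1 : colW red (e φ).1 ⟨f, hf⟩ = colI φ.1 ⟨f, hf⟩ := congrFun (he2 φ) _
    rw [h1]
    exact and_congr_right fun _ => forall_congr' fun γ => hs φ γ
  have e1 : Nat.card {φ : IB F G // colI φ ⟨f, hf⟩ = c ∧ ∀ γ : L, αL G L γ • φ = φ} =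
      Nat.card {φ : IBs F G // colI φ.1 ⟨f, hf⟩ = c ∧ ∀ γ : L, αL G L γ • φ.1 = φ.1} :=
    Nat.card_congr
      { toFun := fun φ => ⟨⟨φ.1, γ₀, hγG, φ.2.2 ⟨γ₀, hγL⟩⟩, φ.2⟩
        invFun := fun φ => ⟨φ.1.1, φ.2⟩
        left_inv := fun φ => rfl
        right_inv := fun φ => rfl }
  have e2 : Nat.card {κ : WC p G // colW red κ ⟨f, hf⟩ = c ∧ ∀ γ : L, αL G L γ • κ = κ} =
      Nat.card {κ : WCs p G // colW red κ.1 ⟨f, hf⟩ = c ∧ ∀ γ : L, αL G L γ • κ.1 = κ.1} :=
    Nat.card_congr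
      { toFun := fun κ => ⟨⟨κ.1, γ₀, hγG, κ.2.2 ⟨γ₀, hγL⟩⟩, κ.2⟩
        invFun := fun κ => ⟨κ.1.1, κ.2⟩
        left_inv := fun κ => rfl
        right_inv := fun κ => rfl }
  rw [e1, e2]
  exact Nat.card_congr (e.subtypeEquiv key)

end

section explicit

variable {p : ℕ} {F : Type} [Field F] {Γ : Type} [Group Γ] [Finite Γ]

/-- the bijection off the regular orbits, as a map on the weights -/
def StBij (p : ℕ) {F : Type} [Field F] (red : integralClosure ℤ ℂ →+* F)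
    {Γ : Type} [Group Γ] (G : Subgroup Γ) [G.Normal] : Prop :=
  ∃ Φ : {w : Subgroup G × (G → ℂ) // IsWeight p w ∧ ∃ γ : Γ, γ ∉ G ∧ ∃ g : G,
        mv (MulAut.conjNormal γ) w = mv (MulAut.conj g) w} →
      {φ : G → F // IsIrrTrace φ ∧ ∃ γ : Γ, γ ∉ G ∧ ∀ x : G, φ (MulAut.conjNormal γ x) = φ x},
    Function.Surjective Φ ∧
    (∀ w w', Φ w = Φ w' ↔ ∃ g : G, w'.1 = mv (MulAut.conj g) w.1) ∧
    (∀ (γ : Γ) w w', w'.1 = mv (MulAut.conjNormal γ) w.1 →
      ∀ x : G, (Φ w').1 (MulAut.conjNormal γ x) = (Φ w).1 x) ∧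
    ∀ w (f : G → F), IsClassFun f → ∀ x : G,
      ∑ᶠ g : G, f g * (Φ w).1 (g * x) = lab red w.1 f * (Φ w).1 x

theorem wcs_iff (G : Subgroup Γ) [G.Normal] (w : WT p G) :
    (∃ γ : Γ, γ ∉ G ∧ MulAut.conjNormal (H := G) γ • mkW w = mkW w) ↔
      ∃ γ : Γ, γ ∉ G ∧ ∃ g : G, mv (MulAut.conjNormal γ) w.1 = mv (MulAut.conj g) w.1 := by
  refine exists_congr fun γ => and_congr_right fun _ => ?_
  rw [wc_smul, eq_comm, mkW_eq]
  refine exists_congr fun g => ?_
  rw [Subtype.ext_iff, smul_val, smul_val]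
  exact eq_comm

theorem ib_fix (G : Subgroup Γ) [G.Normal] (γ : Γ) (φ : IB F G) :
    MulAut.conjNormal (H := G) γ • φ = φ ↔ ∀ x : G, φ.1 (MulAut.conjNormal γ x) = φ.1 x := by
  constructor
  · intro h x
    have h1 := congrFun (congrArg Subtype.val h) (MulAut.conjNormal γ x)
    rw [ib_smul] at h1
    have h3 : (MulAut.conjNormal (H := G) γ)⁻¹ (MulAut.conjNormal (H := G) γ x) = x :=
      (MulAut.conjNormal (H := G) γ).symm_apply_apply x
    rw [h3] at h1
    exact h1.symm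
  · intro h
    apply Subtype.ext
    funext x
    rw [ib_smul]
    have h1 := h ((MulAut.conjNormal (H := G) γ)⁻¹ x)
    have h7 : (MulAut.conjNormal (H := G) γ) ((MulAut.conjNormal (H := G) γ)⁻¹ x) = x :=
      (MulAut.conjNormal (H := G) γ).apply_symm_apply x
    rw [h7] at h1
    exact h1.symm

theorem stBij_iff [IsAlgClosed F] (red : integralClosure ℤ ℂ →+* F) (G : Subgroup Γ)
    [G.Normal] : (∃ e : IBs F G ≃ WCs p G, (∀ (γ : Γ) (φ φ' : IBs F G),
      φ'.1 = MulAut.conjNormal (H := G) γ • φ.1 →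
      (e φ').1 = MulAut.conjNormal (H := G) γ • (e φ).1) ∧
      ∀ φ, colW red (e φ).1 = colI φ.1) ↔ StBij p red G := by
  constructor
  · rintro ⟨e, he1, he2⟩
    let k : {w : Subgroup G × (G → ℂ) // IsWeight p w ∧ ∃ γ : Γ, γ ∉ G ∧ ∃ g : G,
        mv (MulAut.conjNormal γ) w = mv (MulAut.conj g) w} → WCs p G :=
      fun w => ⟨mkW ⟨w.1, w.2.1⟩, (wcs_iff G ⟨w.1, w.2.1⟩).2 w.2.2⟩
    have hk : ∀ w w', k w = k w' ↔ ∃ g : G, w'.1 = mv (MulAut.conj g) w.1 := by
      intro w w'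
      refine Iff.trans (@Subtype.ext_iff _ _ (k w) (k w')) ?_
      change mkW (⟨w.1, w.2.1⟩ : WT p G) = mkW ⟨w'.1, w'.2.1⟩ ↔ _
      rw [mkW_eq]
      refine exists_congr fun g => ?_
      rw [Subtype.ext_iff, smul_val]
      exact eq_comm
    let Φ : {w : Subgroup G × (G → ℂ) // IsWeight p w ∧ ∃ γ : Γ, γ ∉ G ∧ ∃ g : G,
        mv (MulAut.conjNormal γ) w = mv (MulAut.conj g) w} →
      {φ : G → F // IsIrrTrace φ ∧ ∃ γ : Γ, γ ∉ G ∧ ∀ x : G, φ (MulAut.conjNormal γ x) = φ x} :=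
      fun w => ⟨(e.symm (k w)).1.1, (e.symm (k w)).1.2, by
        obtain ⟨γ, h1, h2⟩ := (e.symm (k w)).2
        exact ⟨γ, h1, (ib_fix G γ _).1 h2⟩⟩
    have hΦ : ∀ w w', Φ w = Φ w' ↔ k w = k w' := by
      intro w w'
      constructor
      · intro h
        have h5 : (e.symm (k w)).1.1 = (e.symm (k w')).1.1 :=
          congrArg (fun t : {φ : G → F // IsIrrTrace φ ∧ ∃ γ : Γ, γ ∉ G ∧
            ∀ x : G, φ (MulAut.conjNormal γ x) = φ x} => t.1) h
        exact e.symm.injective (Subtype.ext (Subtype.ext h5))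
      · intro h
        have h5 : (e.symm (k w)).1.1 = (e.symm (k w')).1.1 :=
          congrArg (fun t => (e.symm t).1.1) h
        exact Subtype.ext h5
    refine ⟨Φ, ?_, ?_, ?_, ?_⟩
    · rintro ⟨φ, h1, γ, h2, h3⟩
      let φ' : IBs F G := ⟨⟨φ, h1⟩, γ, h2, (ib_fix G γ ⟨φ, h1⟩).2 h3⟩
      obtain ⟨w, hw⟩ := mkW_surj (e φ').1
      have h4 : ∃ γ : Γ, γ ∉ G ∧ ∃ g : G, mv (MulAut.conjNormal γ) w.1 = mv (MulAut.conj g) w.1 := by
        rw [← wcs_iff, hw]
        exact (e φ').2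
      refine ⟨⟨w.1, w.2, h4⟩, ?_⟩
      apply Subtype.ext
      change (e.symm (k ⟨w.1, w.2, h4⟩)).1.1 = φ
      have h5 : k ⟨w.1, w.2, h4⟩ = e φ' := Subtype.ext hw
      rw [h5, e.symm_apply_apply]
    · intro w w'
      rw [hΦ, hk]
    · intro γ w w' hw x
      change (e.symm (k w')).1.1 _ = (e.symm (k w)).1.1 x
      have h1 : (⟨w'.1, w'.2.1⟩ : WT p G) = MulAut.conjNormal (H := G) γ • ⟨w.1, w.2.1⟩ :=
        Subtype.ext hw
      have h2 : (k w').1 = MulAut.conjNormal (H := G) γ • (k w).1 := by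
        change mkW (⟨w'.1, w'.2.1⟩ : WT p G) = MulAut.conjNormal (H := G) γ • mkW ⟨w.1, w.2.1⟩
        rw [h1, wc_smul]
      have h3 : ∃ γ₁ : Γ, γ₁ ∉ G ∧ MulAut.conjNormal (H := G) γ₁ •
          (MulAut.conjNormal (H := G) γ • (e.symm (k w)).1) =
          MulAut.conjNormal (H := G) γ • (e.symm (k w)).1 := by
        obtain ⟨γ₁, h4, h5⟩ := (e.symm (k w)).2
        refine ⟨γ * γ₁ * γ⁻¹, ?_, ?_⟩
        · intro h6
          apply h4
          have h7 := (inferInstance : G.Normal).conj_mem _ h6 γ⁻¹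
          have e8 : γ⁻¹ * (γ * γ₁ * γ⁻¹) * γ⁻¹⁻¹ = γ₁ := by group
          rwa [e8] at h7
        · rw [← mul_smul, ← map_mul, inv_mul_cancel_right, map_mul, mul_smul, h5]
      have h6 := he1 γ (e.symm (k w)) ⟨MulAut.conjNormal (H := G) γ • (e.symm (k w)).1, h3⟩ rfl
      rw [e.apply_symm_apply, ← h2] at h6
      have h7 : e.symm (k w') = ⟨MulAut.conjNormal (H := G) γ • (e.symm (k w)).1, h3⟩ :=
        (Equiv.symm_apply_eq e).2 (Subtype.ext h6).symm
      have h7' : (e.symm (k w')).1 = MulAut.conjNormal (H := G) γ • (e.symm (k w)).1 :=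
        congrArg Subtype.val h7
      rw [h7', ib_smul]
      have h8 : (MulAut.conjNormal (H := G) γ)⁻¹ (MulAut.conjNormal (H := G) γ x) = x :=
        (MulAut.conjNormal (H := G) γ).symm_apply_apply x
      rw [h8]
    · intro w f hf
      have h1 := he2 (e.symm (k w))
      rw [e.apply_symm_apply] at h1
      exact (colI_iff (e.symm (k w)).1 ⟨f, hf⟩ (lab red w.1 f)).2 (by
        rw [← h1]
        rfl)
  · rintro ⟨Φ, h1, h2, h3, h4⟩
    -- the classes
    have hex : ∀ κ : WCs p G, ∃ w : {w : Subgroup G × (G → ℂ) // IsWeight p w ∧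
        ∃ γ : Γ, γ ∉ G ∧ ∃ g : G, mv (MulAut.conjNormal γ) w = mv (MulAut.conj g) w},
        mkW (⟨w.1, w.2.1⟩ : WT p G) = κ.1 := by
      intro κ
      obtain ⟨w, hw⟩ := mkW_surj κ.1
      refine ⟨⟨w.1, w.2, ?_⟩, hw⟩
      rw [← wcs_iff, hw]
      exact κ.2
    choose s hs using hex
    let Ψ : WCs p G → IBs F G := fun κ => ⟨⟨(Φ (s κ)).1, (Φ (s κ)).2.1⟩, by
      obtain ⟨γ, h5, h6⟩ := (Φ (s κ)).2.2
      exact ⟨γ, h5, (ib_fix G γ _).2 h6⟩⟩
    have hcl : ∀ w w' : {w : Subgroup G × (G → ℂ) // IsWeight p w ∧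
        ∃ γ : Γ, γ ∉ G ∧ ∃ g : G, mv (MulAut.conjNormal γ) w = mv (MulAut.conj g) w},
        Φ w = Φ w' ↔ mkW (⟨w.1, w.2.1⟩ : WT p G) = mkW ⟨w'.1, w'.2.1⟩ := by
      intro w w'
      rw [h2, mkW_eq]
      refine exists_congr fun g => ?_
      rw [Subtype.ext_iff, smul_val]
      exact eq_comm
    have hΨ : ∀ (κ : WCs p G) (w : {w : Subgroup G × (G → ℂ) // IsWeight p w ∧
        ∃ γ : Γ, γ ∉ G ∧ ∃ g : G, mv (MulAut.conjNormal γ) w = mv (MulAut.conj g) w}),
        mkW (⟨w.1, w.2.1⟩ : WT p G) = κ.1 → (Ψ κ).1.1 = (Φ w).1 := by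
      intro κ w hw
      change (Φ (s κ)).1 = (Φ w).1
      rw [(hcl (s κ) w).2 ((hs κ).trans hw.symm)]
    have hbij : Function.Bijective Ψ := by
      constructor
      · intro κ κ' h
        have h5 : Φ (s κ) = Φ (s κ') := by
          apply Subtype.ext
          have h6 := congrArg (fun t : IBs F G => t.1.1) h
          exact h6
        rw [hcl, hs, hs] at h5
        exact Subtype.ext h5
      · rintro ⟨⟨φ, h5⟩, γ, h6, h7⟩
        obtain ⟨w, hw⟩ := h1 ⟨φ, h5, γ, h6, (ib_fix G γ ⟨φ, h5⟩).1 h7⟩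
        refine ⟨⟨mkW ⟨w.1, w.2.1⟩, (wcs_iff G ⟨w.1, w.2.1⟩).2 w.2.2⟩, ?_⟩
        apply Subtype.ext
        apply Subtype.ext
        exact (hΨ _ w rfl).trans (congrArg Subtype.val hw)
    let e := (Equiv.ofBijective Ψ hbij).symm
    have he : ∀ κ, e (Ψ κ) = κ := fun κ => (Equiv.ofBijective Ψ hbij).symm_apply_apply κ
    refine ⟨e, ?_, ?_⟩
    · intro γ φ φ' hφ
      obtain ⟨κ, rfl⟩ := hbij.2 φ
      obtain ⟨κ', rfl⟩ := hbij.2 φ'
      rw [he, he]
      have h5 : (MulAut.conjNormal (H := G) γ • κ.1) =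
          mkW (MulAut.conjNormal (H := G) γ • ⟨(s κ).1, (s κ).2.1⟩) := by
        rw [← hs κ, wc_smul]
      have h6 : ∃ γ₁ : Γ, γ₁ ∉ G ∧ MulAut.conjNormal (H := G) γ₁ •
          (MulAut.conjNormal (H := G) γ • κ.1) = MulAut.conjNormal (H := G) γ • κ.1 := by
        obtain ⟨γ₁, h4, h5⟩ := κ.2
        refine ⟨γ * γ₁ * γ⁻¹, ?_, ?_⟩
        · intro h6
          apply h4
          have h7 := (inferInstance : G.Normal).conj_mem _ h6 γ⁻¹
          have e8 : γ⁻¹ * (γ * γ₁ * γ⁻¹) * γ⁻¹⁻¹ = γ₁ := by group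
          rwa [e8] at h7
        · rw [← mul_smul, ← map_mul, inv_mul_cancel_right, map_mul, mul_smul, h5]
      have h7 : ∃ γ₁ : Γ, γ₁ ∉ G ∧ ∃ g : G, mv (MulAut.conjNormal γ₁)
          (mv (MulAut.conjNormal γ) (s κ).1) =
          mv (MulAut.conj g) (mv (MulAut.conjNormal γ) (s κ).1) := by
        have h8 := (wcs_iff G (MulAut.conjNormal (H := G) γ •
          (⟨(s κ).1, (s κ).2.1⟩ : WT p G))).1 (by rw [← h5]; exact h6)
        exact h8
      let w' : {w : Subgroup G × (G → ℂ) // IsWeight p w ∧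
        ∃ γ : Γ, γ ∉ G ∧ ∃ g : G, mv (MulAut.conjNormal γ) w = mv (MulAut.conj g) w} :=
        ⟨mv (MulAut.conjNormal γ) (s κ).1, (s κ).2.1.mv _, h7⟩
      have h8 : (Ψ ⟨MulAut.conjNormal (H := G) γ • κ.1, h6⟩).1.1 = (Φ w').1 := by
        refine hΨ _ w' ?_
        change mkW (⟨mv (MulAut.conjNormal γ) (s κ).1, _⟩ : WT p G) =
          MulAut.conjNormal (H := G) γ • κ.1
        rw [h5]
        rfl
      have h9 : Ψ κ' = Ψ ⟨MulAut.conjNormal (H := G) γ • κ.1, h6⟩ := by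
        apply Subtype.ext
        rw [hφ]
        apply Subtype.ext
        rw [h8]
        funext x
        rw [ib_smul]
        change (Φ (s κ)).1 _ = (Φ w').1 x
        have h10 := h3 γ (s κ) w' rfl ((MulAut.conjNormal (H := G) γ)⁻¹ x)
        have h11 : (MulAut.conjNormal (H := G) γ) ((MulAut.conjNormal (H := G) γ)⁻¹ x) = x :=
          (MulAut.conjNormal (H := G) γ).apply_symm_apply x
        rw [h11] at h10
        exact h10.symm
      rw [hbij.1 h9]
    · intro φ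
      obtain ⟨κ, rfl⟩ := hbij.2 φ
      rw [he, ← hs κ]
      funext f
      rw [colW_mk]
      exact ((colI_iff (Ψ κ).1 f (lab red (s κ).1 f.1)).1 (h4 (s κ) f.1 f.2)).symm

end explicit

section main

variable {p : ℕ} [Fact p.Prime] {F : Type} [Field F] [IsAlgClosed F] [CharP F p]
  {Γ : Type} [Group Γ] [Finite Γ] {G : Subgroup Γ}

theorem stBij_of_nav (red : integralClosure ℤ ℂ →+* F) [hG : G.Normal]
    (hp : IsPGroup p (Γ ⧸ G)) :
    (∀ L : Subgroup Γ, G < L → NavarroTheta p red (G.subgroupOf L)) ↔ StBij p red G := by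
  rw [← stBij_iff]
  constructor
  · intro h
    exact (stable_of Pool.Agent.Q66.NB.nfr Pool.Agent.Q66.NB.cng red G hp
      fun L hL => (theta_iff p F red L _).1 (h L hL)).1
  · intro h L hL
    exact (theta_iff p F red L _).2 (nav_of_stable red hp h L hL)

/-- the congruence -/
theorem cong_of (red : integralClosure ℤ ℂ →+* F) [hG : G.Normal]
    (hp : IsPGroup p (Γ ⧸ G)) (h : StBij p red G) {b : (G → F) → F} (hb : IsBlock b)
    (L : Subgroup Γ)
    (hL : ∀ γ ∈ L, ∀ f : G → F, IsClassFun f → b (fun x => f (MulAut.conjNormal γ x)) = b f) :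
    (numIrrBlock b : ℤ) ≡ (∑ᶠ c : Quotient (pSubgroupSetoid p G), numWtBlock p red c.out.1 b : ℕ)
      [ZMOD G.relIndex L] := by
  have h1 := (stable_of Pool.Agent.Q66.NB.nfr Pool.Agent.Q66.NB.cng red G hp
      fun L hL => nav_of_stable red hp ((stBij_iff red G).2 h) L hL).2 (fun f => b f.1)
  have e1 : ∀ φ : IB F G, (colI φ = fun f => b f.1) ↔ ∀ f, colI φ f = b f.1 :=
    fun φ => funext_iff
  have e2 : ∀ κ : WC p G, (colW red κ = fun f => b f.1) ↔ ∀ f, colW red κ f = b f.1 :=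
    fun κ => funext_iff
  rw [Nat.card_congr (Equiv.subtypeEquivRight e1),
    Nat.card_congr (Equiv.subtypeEquivRight e2), ← irr_col b, ← wt_col red b] at h1
  refine h1.of_dvd ?_
  let c₀ : Col F G := fun f => b f.1
  have h2 : L ≤ (MulAction.stabilizer (MulAut G) c₀).comap
      (MulAut.conjNormal (H := G)) := by
    intro γ hγ
    rw [Subgroup.mem_comap, MulAction.mem_stabilizer_iff]
    funext f
    rw [col_smul]
    exact hL γ hγ f.1 f.2
  have h3 : ∀ A C : Subgroup Γ, A ≤ C → G.relIndex A ∣ G.relIndex C := by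
    intro A C hAC
    rw [← Subgroup.relIndex_sup_right A G, ← Subgroup.relIndex_sup_right C G]
    exact Dvd.intro _ (Subgroup.relIndex_mul_relIndex G (A ⊔ G) (C ⊔ G) le_sup_right
      (sup_le_sup_right hAC G))
  exact_mod_cast h3 _ _ h2

/-- **Sylow subgroups which meet in `G`** -/
theorem bawc_ti (red : integralClosure ℤ ℂ →+* F) : ∀ (n : ℕ) (Γ : Type) [Group Γ] [Finite Γ]
    (G : Subgroup Γ) [G.Normal], G.index = p ^ n →
    (∀ P₁ P₂ : Sylow p Γ, P₁ ≠ P₂ → (P₁ : Subgroup Γ) ⊓ (P₂ : Subgroup Γ) ≤ G) →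
    (BAWC p red Γ ↔ BAWC p red G) := by
  intro n
  induction n with
  | zero =>
    intro Γ _ _ G _ hn _
    rw [pow_zero, Subgroup.index_eq_one] at hn
    subst hn
    exact ⟨bawc_iso red Subgroup.topEquiv, bawc_iso red Subgroup.topEquiv.symm⟩
  | succ n ih =>
    intro Γ _ _ G hG hn hT
    have hpr : p.Prime := Fact.out
    have hpG : IsPGroup p (Γ ⧸ G) := IsPGroup.of_card (n := n + 1) hn
    obtain ⟨N', hN'n, hN'i⟩ : ∃ N' : Subgroup (Γ ⧸ G), N'.Normal ∧ N'.index = p := by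
      have hk : Nat.card (Γ ⧸ G) = p ^ (n + 1) := hn
      obtain ⟨N', hN'⟩ := Sylow.exists_subgroup_card_pow_prime (G := Γ ⧸ G) p (n := n)
        (by rw [hk]; exact pow_dvd_pow p (Nat.le_succ n))
      have hi : N'.index = p := by
        have e1 := N'.card_mul_index
        rw [hN', hk, pow_succ] at e1
        exact Nat.eq_of_mul_eq_mul_left (pow_pos hpr.pos _) e1
      refine ⟨N', Subgroup.normal_of_index_eq_minFac_card ?_, hi⟩
      rw [hi, hk, hpr.pow_minFac (Nat.succ_ne_zero n)]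
    set N := N'.comap (QuotientGroup.mk' G) with hNdef
    have hNn : N.Normal := hN'n.comap _
    have hNi : N.index = p := by
      rw [hNdef, Subgroup.index_comap_of_surjective _ (QuotientGroup.mk'_surjective G), hN'i]
    have hGN : G ≤ N := by
      intro x hx
      rw [hNdef, Subgroup.mem_comap]
      have : QuotientGroup.mk' G x = 1 := (QuotientGroup.eq_one_iff x).2 hx
      rw [this]
      exact N'.one_mem
    have hNc : Nat.card (Γ ⧸ N) = p := hNi
    have hN1 : N ≠ ⊤ := ne_top_of_card hNc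
    have h1 : NavarroTheta p red N := by
      refine crit_syl red hN1 (pgroup_of_card hNc) (ti p Γ N fun P₁ P₂ hne => ?_)
      rw [sup_eq_left.2 ((hT P₁ P₂ hne).trans hGN)]
      exact hN1
    have h2 := pbi p F red Γ N hNc ((theta_iff p F red Γ N).1 h1)
    have hGNn : (G.subgroupOf N).Normal := Subgroup.normal_subgroupOf
    have h3 := ih N (G.subgroupOf N) (by
      have e1 : G.relIndex N * N.index = G.index := Subgroup.relIndex_mul_index hGN
      rw [hNi, hn, pow_succ] at e1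
      exact Nat.eq_of_mul_eq_mul_right hpr.pos e1) (by
      intro P₁ P₂ hne
      obtain ⟨Q₁, hQ₁⟩ := P₁.exists_comap_subtype_eq
      obtain ⟨Q₂, hQ₂⟩ := P₂.exists_comap_subtype_eq
      have hne' : Q₁ ≠ Q₂ := by
        rintro rfl
        exact hne (Sylow.ext (hQ₁.symm.trans hQ₂))
      intro x hx
      rw [Subgroup.mem_subgroupOf]
      have hx1 : x ∈ (P₁ : Subgroup N) := hx.1
      have hx2 : x ∈ (P₂ : Subgroup N) := hx.2
      rw [← hQ₁, Subgroup.mem_comap] at hx1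
      rw [← hQ₂, Subgroup.mem_comap] at hx2
      exact hT Q₁ Q₂ hne' ⟨hx1, hx2⟩)
    rw [h2, h3]
    exact ⟨bawc_iso red (Subgroup.subgroupOfEquivOfLe hGN).symm,
      bawc_iso red (Subgroup.subgroupOfEquivOfLe hGN)⟩

/-- Navarro's equality for the groups between `G` and `Γ` -/
theorem nav_ti (red : integralClosure ℤ ℂ →+* F) [hG : G.Normal] (hp : IsPGroup p (Γ ⧸ G))
    (hT : ∀ P₁ P₂ : Sylow p Γ, P₁ ≠ P₂ → (P₁ : Subgroup Γ) ⊓ (P₂ : Subgroup Γ) ≤ G)
    (L : Subgroup Γ) (hL : G < L) : NavarroTheta p red (G.subgroupOf L) := by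
  have h1 : G.subgroupOf L ≠ ⊤ := by
    intro h
    exact absurd (Subgroup.subgroupOf_eq_top.1 h) (not_le_of_gt hL)
  exact crit_syl red h1 (pgroup_sub hp) (ti p L (G.subgroupOf L) (til p Γ G hT L hL))

end main

end Pool.Agent.Q18.LF
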