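import Pool.Agent.Q18.LF.Err

/-!
# The equality of Knörr and Robinson and normal subgroups of `p`-power index
-/

set_option autoImplicit false

open scoped Classical BigOperators

noncomputable section

set_option linter.unusedSectionVars false
set_option linter.unusedVariables false

namespace Pool.Agent.Q18.LF

open Pool.Agent.Q18.NB
open Pool.Agent.Y63.NV
open Pool.Agent.Y63.KR

/-- `U` is an elementary abelian `p`-group. -/
def Elem (p : ℕ) {Γ : Type} [Group Γ] (U : Subgroup Γ) : Prop :=
  (∀ x ∈ U, x ^ p = 1) ∧ ∀ x ∈ U, ∀ y ∈ U, x * y = y * x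

section

variable {p : ℕ} [Fact p.Prime] {F : Type} [Field F] [IsAlgClosed F] [CharP F p]
  {Γ : Type} [Group Γ] [Finite Γ] {G : Subgroup Γ}

/-- `N_Γ(U)/U` and `C_G(U)` -/
theorem nq_iso [hG : G.Normal] {U : Subgroup Γ} (h1 : G ⊔ U = ⊤) (h2 : G ⊓ U = ⊥) :
    ∃ e : ↥(G ⊓ Subgroup.centralizer (U : Set Γ)) ≃* NQ U,
      ∀ x : ↥(G ⊓ Subgroup.centralizer (U : Set Γ)),
      ∃ y : Subgroup.normalizer (U : Set Γ), (y : Γ) = x ∧ e x = QuotientGroup.mk' _ y := by
  have hle : G ⊓ Subgroup.centralizer (U : Set Γ) ≤ Subgroup.normalizer (U : Set Γ) := by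
    intro x hx
    rw [Subgroup.mem_normalizer_iff]
    have hc : ∀ y ∈ U, x * y * x⁻¹ = y := by
      intro y hy
      have h3 := (Subgroup.mem_centralizer_iff.1 hx.2) y hy
      rw [← h3, mul_inv_cancel_right]
    intro y
    constructor
    · intro hy
      have h3 := hc y hy
      change x * y * x⁻¹ ∈ U
      rw [h3]
      exact hy
    · intro hy
      have h3 := hc _ hy
      have h4 : x * y * x⁻¹ = y := by
        have h5 : x * (x * y * x⁻¹) * x⁻¹ = x * y * x⁻¹ := h3
        have h6 := mul_right_cancel h5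
        exact mul_left_cancel h6
      have h5 : x * y * x⁻¹ ∈ U := hy
      rwa [h4] at h5
  let φ : ↥(G ⊓ Subgroup.centralizer (U : Set Γ)) →* NQ U :=
    (QuotientGroup.mk' (U.subgroupOf (Subgroup.normalizer (U : Set Γ)))).comp
      (Subgroup.inclusion hle)
  refine ⟨MulEquiv.ofBijective φ ⟨?_, ?_⟩, fun x => ⟨Subgroup.inclusion hle x, rfl, rfl⟩⟩
  · rw [injective_iff_map_eq_one]
    intro x hx
    have h3 : (Subgroup.inclusion hle x) ∈ U.subgroupOf (Subgroup.normalizer (U : Set Γ)) :=
      (QuotientGroup.eq_one_iff _).1 hx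
    have h4 : (x : Γ) ∈ U := h3
    have h5 : (x : Γ) ∈ G ⊓ U := ⟨x.2.1, h4⟩
    rw [h2, Subgroup.mem_bot] at h5
    exact Subtype.ext h5
  · intro y
    obtain ⟨y, rfl⟩ := QuotientGroup.mk'_surjective _ y
    have h3 : (y : Γ) ∈ G ⊔ U := h1 ▸ Subgroup.mem_top _
    obtain ⟨g, hg, u, hu, hgu⟩ := Subgroup.mem_sup_of_normal_left.1 h3
    have hun : u ∈ Subgroup.normalizer (U : Set Γ) := Subgroup.le_normalizer hu
    have hgn : g ∈ Subgroup.normalizer (U : Set Γ) := by
      have h4 : g = y * u⁻¹ := by rw [← hgu, mul_inv_cancel_right]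
      rw [h4]
      exact Subgroup.mul_mem _ y.2 (Subgroup.inv_mem _ hun)
    have hgc : g ∈ Subgroup.centralizer (U : Set Γ) := by
      rw [Subgroup.mem_centralizer_iff]
      intro v hv
      have h4 : g * v * g⁻¹ ∈ U := (Subgroup.mem_normalizer_iff.1 hgn v).1 hv
      have h5 : g * v * g⁻¹ * v⁻¹ ∈ G ⊓ U := by
        refine ⟨?_, U.mul_mem h4 (U.inv_mem hv)⟩
        have h6 : g * v * g⁻¹ * v⁻¹ = g * (v * g⁻¹ * v⁻¹) := by group
        rw [h6]
        exact G.mul_mem hg (hG.conj_mem _ (G.inv_mem hg) v)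
      rw [h2, Subgroup.mem_bot, mul_inv_eq_one, mul_inv_eq_iff_eq_mul] at h5
      exact h5.symm
    refine ⟨⟨g, hg, hgc⟩, ?_⟩
    have h4 : Subgroup.inclusion hle ⟨g, hg, hgc⟩ * ⟨u, hun⟩ = y := Subtype.ext hgu
    change QuotientGroup.mk' _ (Subgroup.inclusion hle ⟨g, hg, hgc⟩) = QuotientGroup.mk' _ y
    rw [← h4, map_mul]
    have h5 : QuotientGroup.mk' (U.subgroupOf (Subgroup.normalizer (U : Set Γ)))
        (⟨u, hun⟩ : Subgroup.normalizer (U : Set Γ)) = 1 := (QuotientGroup.eq_one_iff _).2 hu
    rw [h5, mul_one]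

theorem map_krb (red : integralClosure ℤ ℂ →+* F) {A X : Subgroup Γ} {K : Subgroup A}
    (h : K.map A.subtype = X) : KRB p red K ↔ KRB p red X := by
  let e : K ≃* X := (K.equivMapOfInjective A.subtype A.subtype_injective).trans
    (MulEquiv.subgroupCongr h)
  exact ⟨krb_iso p red e, krb_iso p red e.symm⟩

theorem relIndex_dvd' [hG : G.Normal] {A C : Subgroup Γ} (hAC : A ≤ C) :
    G.relIndex A ∣ G.relIndex C := by
  rw [← Subgroup.relIndex_sup_right A G, ← Subgroup.relIndex_sup_right C G]
  exact Dvd.intro _ (Subgroup.relIndex_mul_relIndex G (A ⊔ G) (C ⊔ G) le_sup_right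
    (sup_le_sup_right hAC G))

end

section cent

variable {Γ F : Type} [Group Γ] [Field F]

/-- the number of the irreducible characters of the subgroup `H` of `C` over `b` -/
def numIrrC (red : integralClosure ℤ ℂ →+* F) (G C : Subgroup Γ) (b : (G → F) → F)
    (H : Subgroup C) : ℕ :=
  Nat.card {χ : H → ℂ // Pool.Agent.Y63.AWC.IsIrreducibleCharacter χ ∧
    ∀ z : Γ → F, InZ G z → centralValue red χ (fun x => z x) = b (fun x : G => z x)}

/-- the same for the characters of `C` of defect zero -/
def numDzC (p : ℕ) (red : integralClosure ℤ ℂ →+* F) (G C : Subgroup Γ) (b : (G → F) → F) : ℕ :=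
  Nat.card {χ : C → ℂ // IsWt p (⊥ : Subgroup C) χ ∧
    ∀ z : Γ → F, InZ G z → centralValue red χ (fun x => z x) = b (fun x : G => z x)}

/-- the error term of `C` over `b` -/
def eC (p : ℕ) (red : integralClosure ℤ ℂ →+* F) (G C : Subgroup Γ) (b : (G → F) → F) : ℤ :=
  alternatingSum p C (fun H => (numIrrC red G C b H : ℤ)) - numDzC p red G C b

theorem c_conj [Finite Γ] (red : integralClosure ℤ ℂ →+* F) (G C : Subgroup Γ)
    (b : (G → F) → F) (g : C) (H : Subgroup C) :
    numIrrC red G C b (conjSub g H) = numIrrC red G C b H := by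
  let e : H ≃* conjSub g H := (MulAut.conj g).subgroupMap H
  unfold numIrrC
  exact cnt_iso red e (fun z : Γ → F => InZ G z) (fun z (x : H) => z x)
    (fun z (x : conjSub g H) => z x) (fun z => b (fun x : G => z x))
    (fun z hz a x => hz.conj _ _) (fun z hz x => hz.conj _ _)
    Pool.Agent.Y63.AWC.IsIrreducibleCharacter Pool.Agent.Y63.AWC.IsIrreducibleCharacter
    (fun χ h => Pool.Agent.Y63.AWC.irr_comp e h)
    (fun χ h => Pool.Agent.Y63.AWC.irr_comp e.symm h) (fun χ h => h)

/-- the local error terms and the centralisers -/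
theorem loc_c [Finite Γ] (p : ℕ) (red : integralClosure ℤ ℂ →+* F) {G : Subgroup Γ}
    [hG : G.Normal] {U : Subgroup Γ} (h1 : G ⊔ U = ⊤) (h2 : G ⊓ U = ⊥) (b : (G → F) → F) :
    altB p red G U b - numDzCov p red G U b =
      eC p red G (G ⊓ Subgroup.centralizer (U : Set Γ)) b := by
  obtain ⟨e, he⟩ := nq_iso (G := G) h1 h2
  have hval : ∀ z : Γ → F, InZ G z → ∀ x : ↥(G ⊓ Subgroup.centralizer (U : Set Γ)),
      pz U z (e x) = z x := by
    intro z hz x
    obtain ⟨y, hy, hey⟩ := he x
    rw [hey]
    change push (U.subgroupOf (Subgroup.normalizer (U : Set Γ)))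
      (fun x : Subgroup.normalizer (U : Set Γ) => z x) (y : NQ U) = z x
    rw [push_mk, finsum_eq_single _ 1]
    · rw [Subgroup.coe_one, mul_one, hy]
    · intro q hq
      refine hz.supp _ fun h3 => hq ?_
      have hyG : (y : Γ) ∈ G := hy ▸ x.2.1
      have hqU : ((q : Subgroup.normalizer (U : Set Γ)) : Γ) ∈ U := q.2
      have hqG : ((q : Subgroup.normalizer (U : Set Γ)) : Γ) ∈ G := by
        have h4 := G.mul_mem (G.inv_mem hyG) h3
        rw [Subgroup.coe_mul, inv_mul_cancel_left] at h4
        exact h4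
      have h5 : ((q : Subgroup.normalizer (U : Set Γ)) : Γ) ∈ G ⊓ U := ⟨hqG, hqU⟩
      rw [h2, Subgroup.mem_bot] at h5
      exact Subtype.ext (Subtype.ext h5)
  unfold eC altB
  congr 1
  · refine alt_iso p e _ _ (fun g H => by rw [c_conj]) (fun g H => by rw [cov_conj]) fun H => ?_
    let eH : H ≃* H.map e.toMonoidHom := H.equivMapOfInjective e.toMonoidHom e.injective
    have h3 := cnt_iso red eH (fun z : Γ → F => InZ G z) (fun z (x : H) => z x)
      (fun z (x : H.map e.toMonoidHom) => pz U z x) (fun z => b (fun x : G => z x))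
      (fun z hz a x => pz_class hz U a x) (fun z hz x => hval z hz x)
      Pool.Agent.Y63.AWC.IsIrreducibleCharacter Pool.Agent.Y63.AWC.IsIrreducibleCharacter
      (fun χ h => Pool.Agent.Y63.AWC.irr_comp eH h)
      (fun χ h => Pool.Agent.Y63.AWC.irr_comp eH.symm h) (fun χ h => h)
    unfold numIrrCov numIrrC
    exact_mod_cast h3
  · have h3 := cnt_iso red e (fun z : Γ → F => InZ G z)
      (fun z (x : ↥(G ⊓ Subgroup.centralizer (U : Set Γ))) => z x)
      (fun z => pz U z) (fun z => b (fun x : G => z x))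
      (fun z hz => pz_class hz U) (fun z hz x => hval z hz x) (IsWt p ⊥) (IsWt p ⊥)
      (fun χ h => Pool.Agent.Y286.NV.isWt_comp e (fun x => by
        rw [Subgroup.mem_bot, Subgroup.mem_bot, map_eq_one_iff _ e.injective]) h)
      (fun χ h => Pool.Agent.Y286.NV.isWt_comp e.symm (fun x => by
        rw [Subgroup.mem_bot, Subgroup.mem_bot, map_eq_one_iff _ e.symm.injective]) h)
      (fun χ h => h.irr)
    unfold numDzCov numDzC
    exact_mod_cast h3

end cent

section formula

variable {p : ℕ} [Fact p.Prime] {F : Type} [Field F] [IsAlgClosed F] [CharP F p]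
  {Γ : Type} [Group Γ] [Finite Γ] {G : Subgroup Γ}

/-- **the formula for blocks, index `p`**, with centralisers -/
theorem e_cent (red : integralClosure ℤ ℂ →+* F) [hG : G.Normal] (hc : Nat.card (Γ ⧸ G) = p)
    {b : (G → F) → F} {B : (Γ → F) → F} (hb : IsBlock b) (hB : IsBlock B)
    (hbB : ∀ z : Γ → F, InZ G z → B z = b (fun x : G => z x)) (S : Subgroup Γ)
    (hS : ∀ γ : Γ, γ ∈ S ↔ ∀ f : G → F, IsClassFun f →
      b (fun x => f (MulAut.conjNormal γ x)) = b f) :
    (p : ℤ) * eB p red B = S.index * eB p red b -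
      ∑ᶠ c : Quotient (Pool.Agent.Y63.AWC.pSubgroupSetoid p Γ),
        if G ⊔ c.out.1 = ⊤ ∧ G ⊓ c.out.1 = ⊥ then
          eC p red G (G ⊓ Subgroup.centralizer (c.out.1 : Set Γ)) b else 0 := by
  have h1 := e_index red hc hb hB hbB
  have h2 : Nat.card (MulAction.orbit Γ (cob b)) = S.index := by
    have h3 : S = MulAction.stabilizer Γ (cob b) := by
      ext γ
      rw [hS, MulAction.mem_stabilizer_iff]
      constructor
      · intro h
        funext f
        exact h f.1 f.2
      · intro h f hf
        exact congrFun h ⟨f, hf⟩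
    rw [h3]
    exact Nat.card_congr (MulAction.orbitEquivQuotientStabilizer Γ (cob b))
  rw [h1, h2]
  congr 1
  refine finsum_congr fun c => ?_
  by_cases h : G ⊔ c.out.1 = ⊤ ∧ G ⊓ c.out.1 = ⊥
  · rw [if_pos h, if_pos h, loc_c p red h.1 h.2]
  · rw [if_neg h, if_neg h]

end formula

/-- **The general case.** -/
theorem krb_pow {p : ℕ} [Fact p.Prime] {F : Type} [Field F] [IsAlgClosed F] [CharP F p]
    (red : integralClosure ℤ ℂ →+* F) : ∀ (n : ℕ) (Γ : Type) [Group Γ] [Finite Γ]
    (G : Subgroup Γ) [G.Normal] (m : ℕ), m ≤ n → G.index = p ^ m →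
    (∀ U : Subgroup Γ, Elem p U → U ≠ ⊥ → G ⊓ U = ⊥ →
      KRB p red ↥(G ⊓ Subgroup.centralizer (U : Set Γ))) → (KRB p red Γ ↔ KRB p red G) := by
  have hzero : ∀ (Γ : Type) [Group Γ] [Finite Γ] (G : Subgroup Γ) [G.Normal], G.index = p ^ 0 →
      (KRB p red Γ ↔ KRB p red G) := by
    intro Γ _ _ G _ hn
    rw [pow_zero, Subgroup.index_eq_one] at hn
    subst hn
    exact ⟨krb_iso p red Subgroup.topEquiv.symm, krb_iso p red Subgroup.topEquiv⟩
  intro n
  induction n with
  | zero =>
    intro Γ _ _ G _ m hm hi _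
    obtain rfl := Nat.le_zero.1 hm
    exact hzero Γ G hi
  | succ n ih =>
    intro Γ _ _ G hG m hm hi hyp
    have hpr : p.Prime := Fact.out
    rcases Nat.eq_zero_or_pos m with rfl | hm0
    · exact hzero Γ G hi
    obtain ⟨k, rfl⟩ := Nat.exists_eq_succ_of_ne_zero hm0.ne'
    have hkn : k ≤ n := Nat.le_of_succ_le_succ hm
    obtain ⟨N', hN'n, hN'i⟩ : ∃ N' : Subgroup (Γ ⧸ G), N'.Normal ∧ N'.index = p := by
      have hk : Nat.card (Γ ⧸ G) = p ^ (k + 1) := hi
      obtain ⟨N', hN'⟩ := Sylow.exists_subgroup_card_pow_prime (G := Γ ⧸ G) p (n := k)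
        (by rw [hk]; exact pow_dvd_pow p (Nat.le_succ k))
      have hi' : N'.index = p := by
        have e1 := N'.card_mul_index
        rw [hN', hk, pow_succ] at e1
        exact Nat.eq_of_mul_eq_mul_left (pow_pos hpr.pos _) e1
      refine ⟨N', Subgroup.normal_of_index_eq_minFac_card ?_, hi'⟩
      rw [hi', hk, hpr.pow_minFac (Nat.succ_ne_zero k)]
    set N := N'.comap (QuotientGroup.mk' G) with hNdef
    have hNn : N.Normal := hN'n.comap _
    have hNi : N.index = p := by
      rw [hNdef, Subgroup.index_comap_of_surjective _ (QuotientGroup.mk'_surjective G), hN'i]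
    have hGN : G ≤ N := by
      intro x hx
      rw [hNdef, Subgroup.mem_comap]
      have : QuotientGroup.mk' G x = 1 := (QuotientGroup.eq_one_iff x).2 hx
      rw [this]
      exact N'.one_mem
    have hNc : Nat.card (Γ ⧸ N) = p := hNi
    have hN1 : N ≠ ⊤ := ne_top_of_card hNc
    have hGNi : G.relIndex N = p ^ k := by
      have e1 : G.relIndex N * N.index = G.index := Subgroup.relIndex_mul_index hGN
      rw [hNi, hi, Nat.succ_eq_add_one, pow_succ] at e1
      exact Nat.eq_of_mul_eq_mul_right hpr.pos e1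
    -- the complements
    have ha : ∀ U : Subgroup Γ, IsPGroup p U → N ⊔ U = ⊤ → N ⊓ U = ⊥ → KRB p red (NQ U) := by
      intro U hU hNU hNU2
      obtain ⟨e, -⟩ := nq_iso (G := N) hNU hNU2
      refine krb_iso p red e ?_
      set C := N ⊓ Subgroup.centralizer (U : Set Γ) with hC
      have hcard : Nat.card U = p := card_compl hNc hNU hNU2
      have hUne : U ≠ ⊥ := by
        rintro rfl
        exact hN1 (by simpa using hNU)
      have hUel : Elem p U := by
        constructor
        · intro x hx
          have h1 : (⟨x, hx⟩ : U) ^ Nat.card U = 1 := pow_card_eq_one'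
          rw [hcard] at h1
          exact congrArg Subtype.val h1
        · intro x hx y hy
          have hcyc : IsCyclic U := isCyclic_of_prime_card hcard
          have h1 := (IsCyclic.commGroup (α := U)).mul_comm ⟨x, hx⟩ ⟨y, hy⟩
          exact congrArg Subtype.val h1
      have hGU : G ⊓ U = ⊥ := by
        rw [eq_bot_iff, ← hNU2]
        exact inf_le_inf_right U hGN
      have hGC : (G.subgroupOf C).Normal := Subgroup.normal_subgroupOf
      obtain ⟨j, hj, hji⟩ : ∃ j ≤ k, G.relIndex C = p ^ j := by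
        have h1 : G.relIndex C ∣ p ^ k := by
          rw [← hGNi]
          exact relIndex_dvd' inf_le_left
        exact (Nat.dvd_prime_pow hpr).1 h1
      have h5 := ih C (G.subgroupOf C) j (hj.trans hkn) hji ?_
      · rw [h5]
        refine (map_krb red ?_).2 (hyp U hUel hUne hGU)
        ext x
        constructor
        · rintro ⟨y, hy, rfl⟩
          exact ⟨hy, y.2.2⟩
        · rintro ⟨hx1, hx2⟩
          exact ⟨⟨x, hGN hx1, hx2⟩, hx1, rfl⟩
      · intro V hV hVne hGV
        have hcomm : ∀ u ∈ U, ∀ v : C, u * (v : Γ) = v * u := fun u hu v =>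
          (Subgroup.mem_centralizer_iff.1 v.2.2) u hu
        let W : Subgroup Γ :=
          { carrier := {x | ∃ u ∈ U, ∃ v : C, v ∈ V ∧ u * v = x}
            one_mem' := ⟨1, U.one_mem, 1, V.one_mem, by simp⟩
            mul_mem' := by
              rintro _ _ ⟨u, hu, v, hv, rfl⟩ ⟨u', hu', v', hv', rfl⟩
              refine ⟨u * u', U.mul_mem hu hu', v * v', V.mul_mem hv hv', ?_⟩
              rw [Subgroup.coe_mul]
              have h6 := hcomm u' hu' v
              calc u * u' * ((v : Γ) * v') = u * (u' * v) * v' := by group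
                _ = u * (v * u') * v' := by rw [h6]
                _ = _ := by group
            inv_mem' := by
              rintro _ ⟨u, hu, v, hv, rfl⟩
              refine ⟨u⁻¹, U.inv_mem hu, v⁻¹, V.inv_mem hv, ?_⟩
              rw [mul_inv_rev, Subgroup.coe_inv]
              have h6 := hcomm u⁻¹ (U.inv_mem hu) v⁻¹
              exact h6 }
        have hUW : ∀ u ∈ U, u ∈ W := fun u hu => ⟨u, hu, 1, V.one_mem, by simp⟩
        have hVW : ∀ v : C, v ∈ V → (v : Γ) ∈ W := fun v hv => ⟨1, U.one_mem, v, hv, by simp⟩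
        have hWel : Elem p W := by
          constructor
          · rintro _ ⟨u, hu, v, hv, rfl⟩
            have h6 : Commute u (v : Γ) := hcomm u hu v
            rw [h6.mul_pow, hUel.1 u hu, one_mul]
            have h7 := hV.1 v hv
            exact_mod_cast congrArg Subtype.val h7
          · rintro _ ⟨u, hu, v, hv, rfl⟩ _ ⟨u', hu', v', hv', rfl⟩
            have h6 := hcomm u' hu' v
            have h7 := hcomm u hu v'
            have h8 := hUel.2 u hu u' hu'
            have h9 : (v : Γ) * v' = v' * v := congrArg Subtype.val (hV.2 v hv v' hv')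
            calc u * v * (u' * v') = u * ((v : Γ) * u') * v' := by group
              _ = u * (u' * v) * v' := by rw [h6]
              _ = (u * u') * (v * v') := by group
              _ = (u' * u) * (v' * v) := by rw [h8, h9]
              _ = u' * (u * v') * v := by group
              _ = u' * (v' * u) * v := by rw [h7]
              _ = _ := by group
        have hWne : W ≠ ⊥ := by
          intro h6
          apply hUne
          rw [eq_bot_iff]
          intro u hu
          have h7 := hUW u hu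
          rwa [h6] at h7
        have hGW : G ⊓ W = ⊥ := by
          rw [eq_bot_iff]
          rintro x ⟨hx, u, hu, v, hv, hxe⟩
          have hvN : (v : Γ) ∈ N := v.2.1
          have huN : u ∈ N := by
            have h6 : u = x * (v : Γ)⁻¹ := by rw [← hxe, mul_inv_cancel_right]
            rw [h6]
            exact N.mul_mem (hGN hx) (N.inv_mem hvN)
          have hu1 : u = 1 := by
            have h6 : u ∈ N ⊓ U := ⟨huN, hu⟩
            rwa [hNU2, Subgroup.mem_bot] at h6
          rw [hu1, one_mul] at hxe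
          have h7' : v ∈ G.subgroupOf C := by
            rw [Subgroup.mem_subgroupOf, hxe]
            exact hx
          have h7 : v ∈ G.subgroupOf C ⊓ V := ⟨h7', hv⟩
          rw [hGV, Subgroup.mem_bot] at h7
          rw [Subgroup.mem_bot, ← hxe, h7]
          rfl
        refine (map_krb red ?_).2 (hyp W hWel hWne hGW)
        ext x
        constructor
        · rintro ⟨y, ⟨hy1, hy2⟩, rfl⟩
          refine ⟨hy1, ?_⟩
          change (y : Γ) ∈ Subgroup.centralizer (W : Set Γ)
          rw [Subgroup.mem_centralizer_iff]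
          rintro _ ⟨u, hu, v, hv, rfl⟩
          have h6 := hcomm u hu y
          have h7 : (v : Γ) * y = y * v :=
            congrArg Subtype.val ((Subgroup.mem_centralizer_iff.1 hy2) v hv)
          calc u * v * (y : Γ) = u * (v * y) := by group
            _ = u * (y * v) := by rw [h7]
            _ = (u * y) * v := by group
            _ = (y * u) * v := by rw [h6]
            _ = _ := by group
        · rintro ⟨hx1, hx2⟩
          have hx3 := Subgroup.mem_centralizer_iff.1 hx2
          have hxC : x ∈ C := ⟨hGN hx1, Subgroup.mem_centralizer_iff.2 fun u hu =>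
            hx3 u (hUW u hu)⟩
          refine ⟨⟨x, hxC⟩, ⟨hx1, ?_⟩, rfl⟩
          change (⟨x, hxC⟩ : C) ∈ Subgroup.centralizer (V : Set C)
          rw [Subgroup.mem_centralizer_iff]
          intro v hv
          exact Subtype.ext (hx3 v (hVW v hv))
    -- the two steps
    have hb := krb_index red hNc ha
    have hGNn : (G.subgroupOf N).Normal := Subgroup.normal_subgroupOf
    have hc := ih N (G.subgroupOf N) k hkn hGNi (by
      intro V hV hVne hGV
      have h1 : Elem p (V.map N.subtype) := by
        constructor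
        · rintro _ ⟨v, hv, rfl⟩
          have h5 := congrArg Subtype.val (hV.1 v hv)
          rw [Subgroup.coe_pow] at h5
          exact h5
        · rintro _ ⟨v, hv, rfl⟩ _ ⟨v', hv', rfl⟩
          exact congrArg Subtype.val (hV.2 v hv v' hv')
      have h2 : V.map N.subtype ≠ ⊥ := by
        intro h
        exact hVne ((Subgroup.map_eq_bot_iff_of_injective V N.subtype_injective).1 h)
      have h3 : G ⊓ V.map N.subtype = ⊥ := by
        rw [eq_bot_iff]
        rintro x ⟨hx, v, hv, rfl⟩
        have h4 : v ∈ G.subgroupOf N ⊓ V := ⟨hx, hv⟩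
        rw [hGV, Subgroup.mem_bot] at h4
        rw [Subgroup.mem_bot, h4]
        rfl
      refine (map_krb red ?_).2 (hyp _ h1 h2 h3)
      ext x
      constructor
      · rintro ⟨y, ⟨hy1, hy2⟩, rfl⟩
        refine ⟨hy1, ?_⟩
        change (y : Γ) ∈ Subgroup.centralizer (V.map N.subtype : Set Γ)
        rw [Subgroup.mem_centralizer_iff]
        rintro _ ⟨v, hv, rfl⟩
        exact congrArg Subtype.val ((Subgroup.mem_centralizer_iff.1 hy2) v hv)
      · rintro ⟨hx1, hx2⟩
        have hx3 := Subgroup.mem_centralizer_iff.1 hx2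
        refine ⟨⟨x, hGN hx1⟩, ⟨hx1, ?_⟩, rfl⟩
        change (⟨x, hGN hx1⟩ : N) ∈ Subgroup.centralizer (V : Set N)
        rw [Subgroup.mem_centralizer_iff]
        intro v hv
        exact Subtype.ext (hx3 v ⟨v, hv, rfl⟩))
    rw [hb, hc]
    refine map_krb red ?_
    ext x
    constructor
    · rintro ⟨y, hy, rfl⟩
      exact hy
    · intro hx
      exact ⟨⟨x, hGN hx⟩, hx, rfl⟩

end Pool.Agent.Q18.LF
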