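import Pool.Agent.Y63.NV.Nfin2
import Pool.Agent.Y63.NV.Kalt
import Pool.Agent.Y63.NV.PeL

/-!
# The local formula for the number of invariant irreducible Brauer characters: statements
-/

set_option autoImplicit false

open scoped Classical

noncomputable section

namespace Pool.Agent.Q18.LF

open Pool.Agent.Y63.NV
open Pool.Agent.Y63.KR (IsPChain chainStabilizer alternatingSum conjSub)
open Pool.Agent.Y63.AWC (IsIrreducibleCharacter pSubgroupSetoid)

section defs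

variable {Γ F : Type} [Group Γ] [Field F]

/-- the group `N_Γ(Q)/Q` -/
abbrev NQ (Q : Subgroup Γ) : Type :=
  Subgroup.normalizer (Q : Set Γ) ⧸ Q.subgroupOf (Subgroup.normalizer (Q : Set Γ))

/-- the image in the group algebra of `N_Γ(Q)/Q` of the restriction of `z` to `N_Γ(Q)` -/
def pz (Q : Subgroup Γ) (z : Γ → F) : NQ Q → F :=
  push (Q.subgroupOf (Subgroup.normalizer (Q : Set Γ))) (fun x => z x)

/-- the inverse image in `Γ` of a subgroup of `N_Γ(Q)/Q` -/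
def up (Q : Subgroup Γ) (K : Subgroup (NQ Q)) : Subgroup Γ :=
  (K.comap (QuotientGroup.mk' (Q.subgroupOf (Subgroup.normalizer (Q : Set Γ))))).map
    (Subgroup.normalizer (Q : Set Γ)).subtype

/-- the chains of `p`-subgroups of `H` which contain `Q` properly -/
def CQ (p : ℕ) (Q H : Subgroup Γ) : Type :=
  {τ : Set (Subgroup Γ) // IsPChain p τ ∧ ∀ P ∈ τ, Q < P ∧ P ≤ H}

/-- the alternating sum of the values of `f` at the stabilisers in `N_H(Q)` of these chains -/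
def LL (p : ℕ) (f : Subgroup Γ → ℤ) (Q H : Subgroup Γ) : ℤ :=
  ∑ᶠ τ : CQ p Q H, (-1) ^ τ.1.ncard *
    f (H ⊓ Subgroup.normalizer (Q : Set Γ) ⊓ chainStabilizer τ.1)

/-- the weighted alternating sum of the numbers of irreducible characters of the stabilisers of
chains at which the reduced central character takes the value `c` -/
def KA (p : ℕ) (red : integralClosure ℤ ℂ →+* F) {J : Type} [Group J] (f : J → F) (c : F) : ℤ :=
  ∑ᶠ σ : {σ : Set (Subgroup J) // IsPChain p σ}, (-1) ^ σ.1.ncard *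
    ((Nat.card (chainStabilizer σ.1) : ℤ) *
      Knum red (fun x : chainStabilizer σ.1 => f x) c)

/-- The number of irreducible characters `χ` of the subgroup `H` of `N_Γ(Q)/Q` whose central
character takes at the image of every `z` the value `B z`. -/
def numIrrCov (red : integralClosure ℤ ℂ →+* F) (G Q : Subgroup Γ) (B : (G → F) → F)
    (H : Subgroup (NQ Q)) : ℕ :=
  Nat.card {χ : H → ℂ // IsIrreducibleCharacter χ ∧
    ∀ z : Γ → F, InZ G z → centralValue red χ (fun x => pz Q z x) = B (fun x : G => z x)}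

/-- the same for characters of `N_Γ(Q)/Q` of defect zero -/
def numDzCov (p : ℕ) (red : integralClosure ℤ ℂ →+* F) (G Q : Subgroup Γ) (B : (G → F) → F) : ℕ :=
  Nat.card {χ : NQ Q → ℂ // IsWt p (⊥ : Subgroup (NQ Q)) χ ∧
    ∀ z : Γ → F, InZ G z → centralValue red χ (pz Q z) = B (fun x : G => z x)}

/-- `H` contains a Sylow `p`-subgroup of `Γ` and the normalisers of its `p`-subgroups `Q` with
`G Q = Γ` -/
structure SE (p : ℕ) (G H : Subgroup Γ) : Prop where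
  syl : ∃ P : Sylow p Γ, (P : Subgroup Γ) ≤ H
  nrm : ∀ Q : Subgroup Γ, IsPGroup p Q → Q ≤ H → G ⊔ Q = ⊤ →
    Subgroup.normalizer (Q : Set Γ) ≤ H

/-- the number of irreducible characters `χ` of the subgroup `H` of `G` whose central character
takes at every `z` in the centre of `F[Γ]` supported on `G` the value `B z` -/
def numIrrG (red : integralClosure ℤ ℂ →+* F) (G : Subgroup Γ) (B : (Γ → F) → F)
    (H : Subgroup G) : ℕ :=
  Nat.card {χ : H → ℂ // IsIrreducibleCharacter χ ∧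
    ∀ z : Γ → F, InZ G z → centralValue red χ (fun x => z x) = B z}

/-- the same for the characters of `G` of defect zero -/
def numDzG (p : ℕ) (red : integralClosure ℤ ℂ →+* F) (G : Subgroup Γ) (B : (Γ → F) → F) : ℕ :=
  Nat.card {χ : G → ℂ // IsWt p (⊥ : Subgroup G) χ ∧
    ∀ z : Γ → F, InZ G z → centralValue red χ (fun x => z x) = B z}

end defs

/-- ALT: a sum over the `p`-subgroups `Q` with `G Q = Γ` -/
def S_ALT : Prop := ∀ (p : ℕ) [Fact p.Prime] (Γ : Type) [Group Γ] [Finite Γ] (G : Subgroup Γ)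
  (w : Subgroup Γ → Subgroup Γ → ℤ) (f : Subgroup Γ → ℤ), G ≠ ⊤ →
  (∀ H : Subgroup Γ, f H = ∑ᶠ R : Subgroup Γ, (if IsPGroup p R ∧ R ≤ H ∧ G ⊔ R = ⊤ then
    w R (H ⊓ Subgroup.normalizer (R : Set Γ)) else 0)) →
  ∀ H : Subgroup Γ, f H = ∑ᶠ Q : Subgroup Γ,
    if IsPGroup p Q ∧ Q ≤ H ∧ G ⊔ Q = ⊤ then LL p f Q H else 0

/-- NRM: only chains in the normaliser of `Q` are needed -/
def S_NRM : Prop := ∀ (p : ℕ) [Fact p.Prime] (Γ : Type) [Group Γ] [Finite Γ]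
  (f : Subgroup Γ → ℤ) (Q H : Subgroup Γ), IsPGroup p Q → Q ≤ H →
  LL p f Q H = LL p f Q (H ⊓ Subgroup.normalizer (Q : Set Γ))

/-- COR: the chains of `N_Γ(Q)` above `Q` and the chains of `N_Γ(Q)/Q` -/
def S_COR : Prop := ∀ (p : ℕ) [Fact p.Prime] (Γ : Type) [Group Γ] [Finite Γ]
  (f : Subgroup Γ → ℤ) (Q : Subgroup Γ), IsPGroup p Q →
  LL p f Q (Subgroup.normalizer (Q : Set Γ)) =
    ∑ᶠ σ : {σ : Set (Subgroup (NQ Q)) // IsPChain p σ},
      (-1) ^ σ.1.ncard * f (up Q (chainStabilizer σ.1))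

/-- QUO: invariant irreducible traces and the quotient by `Q` -/
def S_QUO : Prop := ∀ (p : ℕ) [Fact p.Prime] (F : Type) [Field F] [IsAlgClosed F] [CharP F p]
  (Γ : Type) [Group Γ] [Finite Γ] (G : Subgroup Γ) [G.Normal] (z : Γ → F), InZ G z →
  ∀ (c : F) (Q : Subgroup Γ), IsPGroup p Q → G ⊔ Q = ⊤ → ∀ K : Subgroup (NQ Q),
    Lsum G (up Q K) z c = Nat.card Q * Lsum (⊤ : Subgroup (NQ Q)) K (cut (pz Q z) K) c

/-- NWQ: weights and the quotient by `Q` -/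
def S_NWQ : Prop := ∀ (p : ℕ) [Fact p.Prime] (F : Type) [Field F] [CharP F p]
  (red : integralClosure ℤ ℂ →+* F) (Γ : Type) [Group Γ] [Finite Γ] (z : Γ → F) (c : F)
  (Q : Subgroup Γ), IsPGroup p Q → IsClassFun z →
    Nw p red (Q.subgroupOf (Subgroup.normalizer (Q : Set Γ))) (fun x => z x) c =
      Nw p red (⊥ : Subgroup (NQ Q)) (pz Q z) c

/-- CLS: the image of a class function is a class function -/
def S_CLS : Prop := ∀ (F : Type) [Field F] (Γ : Type) [Group Γ] [Finite Γ] (z : Γ → F)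
  (Q : Subgroup Γ), IsClassFun z → IsClassFun (pz Q z)

/-- CNV: conjugate subgroups `Q` -/
def S_CNV : Prop := ∀ (p : ℕ) (F : Type) [Field F] (red : integralClosure ℤ ℂ →+* F) (Γ : Type)
  [Group Γ] [Finite Γ] (G : Subgroup Γ) (B : (G → F) → F) (g : Γ) (Q : Subgroup Γ),
    alternatingSum p (NQ (conjSub g Q)) (fun H => (numIrrCov red G (conjSub g Q) B H : ℤ)) =
      alternatingSum p (NQ Q) (fun H => (numIrrCov red G Q B H : ℤ))

/-- CMA: the alternating sum as a weighted sum over all chains -/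
def S_CMA : Prop := ∀ (p : ℕ) (F : Type) [Field F] (red : integralClosure ℤ ℂ →+* F) (Γ : Type)
  [Group Γ] [Finite Γ] (G : Subgroup Γ) (B : (G → F) → F) (Q : Subgroup Γ),
    (Nat.card (NQ Q) : ℤ) * alternatingSum p (NQ Q) (fun H => (numIrrCov red G Q B H : ℤ)) =
      ∑ᶠ σ : {σ : Set (Subgroup (NQ Q)) // IsPChain p σ}, (-1) ^ σ.1.ncard *
        ((Nat.card (chainStabilizer σ.1) : ℤ) * numIrrCov red G Q B (chainStabilizer σ.1))

/-- SEPK: from the identities for single central elements to blocks, weighted form -/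
def S_SEPK : Prop := ∀ (p : ℕ) [Fact p.Prime] (F : Type) [Field F] [IsAlgClosed F] [CharP F p]
  (red : integralClosure ℤ ℂ →+* F) (Γ : Type) [Group Γ] [Finite Γ] (G : Subgroup Γ) [G.Normal],
  IsPGroup p (Γ ⧸ G) →
  (∀ z : Γ → F, InZ G z → ∀ c : F, Lsum G ⊤ z c = ∑ᶠ Q : Subgroup Γ,
    if IsPGroup p Q ∧ G ⊔ Q = ⊤ then (Nat.card Q : ℤ) * KA p red (pz Q z) c else 0) →
  ∀ B : (G → F) → F, IsBlock B → IsInvBlock G B →
    (Nat.card Γ : ℤ) * numIBr G B = ∑ᶠ Q : Subgroup Γ,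
      if IsPGroup p Q ∧ G ⊔ Q = ⊤ then (Nat.card Q : ℤ) *
        ∑ᶠ σ : {σ : Set (Subgroup (NQ Q)) // IsPChain p σ}, (-1) ^ σ.1.ncard *
        ((Nat.card (chainStabilizer σ.1) : ℤ) * numIrrCov red G Q B (chainStabilizer σ.1)) else 0

/-- CNT: orbit counting for a subgroup `H` as in `SE` -/
def S_CNT : Prop := ∀ (p : ℕ) [Fact p.Prime] (Γ : Type) [Group Γ] [Finite Γ] (G H : Subgroup Γ)
  [G.Normal] (φ : Subgroup Γ → ℤ), SE p G H → (∀ (g : Γ) (Q : Subgroup Γ), φ (conjSub g Q) = φ Q) →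
  (Nat.card H : ℤ) * (∑ᶠ Q : Subgroup Γ, if IsPGroup p Q ∧ G ⊔ Q = ⊤ then φ Q else 0) =
    (Nat.card Γ : ℤ) * ∑ᶠ Q : Subgroup Γ, if IsPGroup p Q ∧ Q ≤ H ∧ G ⊔ Q = ⊤ then φ Q else 0

/-- LCJ: conjugation invariance -/
def S_LCJ : Prop := ∀ (p : ℕ) (F : Type) [Field F] (Γ : Type) [Group Γ] [Finite Γ]
  (G : Subgroup Γ) [G.Normal] (z : Γ → F), InZ G z → ∀ (c : F) (g : Γ) (Q : Subgroup Γ),
    LL p (fun H => Lsum G H z c) (conjSub g Q) (Subgroup.normalizer (conjSub g Q : Set Γ)) =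
      LL p (fun H => Lsum G H z c) Q (Subgroup.normalizer (Q : Set Γ))

/-- SEPH: from single central elements to blocks, for a subgroup `H` -/
def S_SEPH : Prop := ∀ (p : ℕ) [Fact p.Prime] (F : Type) [Field F] [IsAlgClosed F] [CharP F p]
  (Γ : Type) [Group Γ] [Finite Γ] (G H : Subgroup Γ) [G.Normal],
  IsPGroup p (Γ ⧸ G) → G ⊔ H = ⊤ →
  (∀ z : Γ → F, InZ G z → ∀ c : F,
    (Nat.card H : ℤ) * Lsum G ⊤ z c = (Nat.card Γ : ℤ) * Lsum G H z c) →
  ∀ B : (G → F) → F, IsBlock B → IsInvBlock G B → numIBr G B = numIBrInd G H B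

/-- KRN: the case of a nontrivial normal `p`-subgroup -/
def S_KRN : Prop := ∀ (p : ℕ) [Fact p.Prime] (F : Type) [Field F] [IsAlgClosed F] [CharP F p]
  (red : integralClosure ℤ ℂ →+* F) (J : Type) [Group J] [Finite J] (Z : Subgroup J) [Z.Normal],
  IsPGroup p Z → Z ≠ ⊥ → KRB p red J

/-- KRP: the case of a `p'`-group -/
def S_KRP : Prop := ∀ (p : ℕ) [Fact p.Prime] (F : Type) [Field F] [IsAlgClosed F] [CharP F p]
  (red : integralClosure ℤ ℂ →+* F) (J : Type) [Group J] [Finite J], ¬ p ∣ Nat.card J →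
  KRB p red J

/-- TI: different Sylow `p`-subgroups with small intersection -/
def S_TI : Prop := ∀ (p : ℕ) [Fact p.Prime] (Γ : Type) [Group Γ] [Finite Γ] (G : Subgroup Γ)
  [G.Normal], (∀ P₁ P₂ : Sylow p Γ, P₁ ≠ P₂ → G ⊔ ((P₁ : Subgroup Γ) ⊓ (P₂ : Subgroup Γ)) ≠ ⊤) →
  ∀ Q : Subgroup Γ, IsPGroup p Q → G ⊔ Q = ⊤ →
    (¬ p ∣ Nat.card (NQ Q)) ∨ ∃ Z : Subgroup (NQ Q), Z.Normal ∧ IsPGroup p Z ∧ Z ≠ ⊥

/-- IDX: chains of `Γ` and chains in the normal subgroup `G` -/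
def S_IDX : Prop := ∀ (p : ℕ) [Fact p.Prime] (Γ : Type) [Group Γ] [Finite Γ] (G : Subgroup Γ)
  [G.Normal] (f : Subgroup Γ → ℤ),
  (∑ᶠ σ : {σ : Set (Subgroup Γ) // IsPChain p σ}, (-1) ^ σ.1.ncard * f (chainStabilizer σ.1)) =
  (∑ᶠ σ : {σ : Set (Subgroup Γ) // IsPChain p σ ∧ ∀ P ∈ σ, P ≤ G},
    (-1) ^ σ.1.ncard * f (chainStabilizer σ.1)) -
  ∑ᶠ U : Subgroup Γ, if IsPGroup p U ∧ U ≠ ⊥ ∧ G ⊓ U = ⊥ then LL p f U ⊤ else 0

/-- SPL: the stabilisers which contain a complement `U` centralising `G ∩ H` -/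
def S_SPL : Prop := ∀ (p : ℕ) [Fact p.Prime] (F : Type) [Field F] [IsAlgClosed F]
  (Γ : Type) [Group Γ] [Finite Γ] (G : Subgroup Γ) [G.Normal] (z : Γ → F) (c : F)
  (U H : Subgroup Γ), Nat.card (Γ ⧸ G) = p → G ⊔ U = ⊤ → G ⊓ U = ⊥ → U ≤ H →
  H ≤ Subgroup.normalizer (U : Set Γ) →
    Lsum G H z c = p * Lsum ⊤ (G ⊓ H) (cut z (G ⊓ H)) c

/-- RES: chains in the normal subgroup `G` as chains of the group `G` -/
def S_RES : Prop := ∀ (p : ℕ) [Fact p.Prime] (F : Type) [Field F] [IsAlgClosed F] [CharP F p]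
  (red : integralClosure ℤ ℂ →+* F) (Γ : Type) [Group Γ] [Finite Γ] (G : Subgroup Γ)
  (z : Γ → F) (c : F), InZ G z →
  (∑ᶠ σ : {σ : Set (Subgroup Γ) // IsPChain p σ ∧ ∀ P ∈ σ, P ≤ G},
    (-1) ^ σ.1.ncard * Lsum ⊤ (G ⊓ chainStabilizer σ.1) (cut z (G ⊓ chainStabilizer σ.1)) c) =
  KA p red (fun x : G => z x) c

/-- PX: index `p` -/
def S_PX : Prop := ∀ (p : ℕ) [Fact p.Prime] (F : Type) [Field F] [IsAlgClosed F] [CharP F p]
  (Γ : Type) [Group Γ] [Finite Γ] (G : Subgroup Γ) [G.Normal] (z : Γ → F) (c : F)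
  (H : Subgroup Γ), Nat.card (Γ ⧸ G) = p → InZ G z →
    (p : ℤ) * Lsum ⊤ H (cut z H) c =
      p * Lsum ⊤ (G ⊓ H) (cut z (G ⊓ H)) c + (p - 1) * Lsum G H z c

/-- DZX: characters of defect zero and index `p` -/
def S_DZX : Prop := ∀ (p : ℕ) [Fact p.Prime] (F : Type) [Field F] [IsAlgClosed F] [CharP F p]
  (red : integralClosure ℤ ℂ →+* F) (Γ : Type) [Group Γ] [Finite Γ] (G : Subgroup Γ) [G.Normal]
  (z : Γ → F) (c : F), Nat.card (Γ ⧸ G) = p → InZ G z →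
    (Nat.card Γ : ℤ) * Nw p red (⊥ : Subgroup Γ) z c =
      (Nat.card G : ℤ) * Nw p red (⊥ : Subgroup G) (fun x => z x) c -
      ∑ᶠ U : Subgroup Γ, if IsPGroup p U ∧ G ⊔ U = ⊤ ∧ G ⊓ U = ⊥ then
        (Nat.card (NQ U) : ℤ) * Nw p red (⊥ : Subgroup (NQ U)) (pz U z) c else 0

/-- SEPX: from single central elements to blocks, index `p` -/
def S_SEPX : Prop := ∀ (p : ℕ) [Fact p.Prime] (F : Type) [Field F] [IsAlgClosed F] [CharP F p]
  (red : integralClosure ℤ ℂ →+* F) (Γ : Type) [Group Γ] [Finite Γ] (G : Subgroup Γ) [G.Normal],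
  Nat.card (Γ ⧸ G) = p →
  (∀ z : Γ → F, InZ G z → ∀ c : F,
    KA p red z c - (Nat.card Γ : ℤ) * Nw p red (⊥ : Subgroup Γ) z c =
      (KA p red (fun x : G => z x) c -
        (Nat.card G : ℤ) * Nw p red (⊥ : Subgroup G) (fun x => z x) c) -
      ∑ᶠ U : Subgroup Γ, if IsPGroup p U ∧ G ⊔ U = ⊤ ∧ G ⊓ U = ⊥ then
        (KA p red (pz U z) c -
          (Nat.card (NQ U) : ℤ) * Nw p red (⊥ : Subgroup (NQ U)) (pz U z) c) else 0) →
  ∀ B : (Γ → F) → F, IsBlock B →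
    (p : ℤ) * (alternatingSum p Γ (fun H => (numIrrInd red H B : ℤ)) - numDzBlock p red B) =
      (alternatingSum p G (fun H => (numIrrG red G B H : ℤ)) - numDzG p red G B) -
      ∑ᶠ c : Quotient (pSubgroupSetoid p Γ), if G ⊔ c.out.1 = ⊤ ∧ G ⊓ c.out.1 = ⊥ then
        (alternatingSum p (NQ c.out.1)
          (fun H => (numIrrCov red G c.out.1 (fun f : G → F => B (fun x : Γ => if h : x ∈ G then f ⟨x, h⟩ else 0)) H : ℤ)) -
          numDzCov p red G c.out.1 (fun f : G → F => B (fun x : Γ => if h : x ∈ G then f ⟨x, h⟩ else 0)))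
        else 0

end Pool.Agent.Q18.LF
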